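import Pool.Agent.U996.GB.Lim

/-!
# The density of the primes at dilated squares of (iterated) primes
-/

set_option autoImplicit false

namespace Pool.Agent.U996.GB

open Finset Filter Topology
open Pool.Agent.U996.UW

/-- dilated powers of a sequence of size `n ^ (1 + o(1))` -/
theorem rz_seq (y : ℕ → ℝ) (hy : Tendsto y atTop atTop)
    (hl : Tendsto (fun n : ℕ => Real.log (y n) / Real.log n) atTop (𝓝 1)) (c : ℕ) (hc : 1 ≤ c) (a : ℝ)
    (ha : 0 < a) (h : ℤ) :
    Tendsto (fun n : ℕ => rz (⌊a * y n ^ c⌋ + h) * Real.log n) atTop (𝓝 (1 / c)) := by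
  have hc0 : (0 : ℝ) < c := by exact_mod_cast hc
  refine rz_lim (fun n => a * y n ^ c) h c hc0 ?_ ?_
  · exact ((tendsto_pow_atTop (by omega)).comp hy).const_mul_atTop ha
  · have h1 : Tendsto (fun n : ℕ => Real.log a / Real.log n + c * (Real.log (y n) / Real.log n)) atTop
        (𝓝 (0 + c * 1)) := (nlog.const_div_atTop _).add (hl.const_mul _)
    rw [zero_add, mul_one] at h1
    refine h1.congr' ?_
    filter_upwards [hy.eventually_gt_atTop 0] with n hn
    rw [Real.log_mul ha.ne' (by positivity), Real.log_pow]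
    ring

theorem P_top' : Tendsto (fun n : ℕ => (P n : ℝ)) atTop atTop :=
  tendsto_natCast_atTop_atTop.comp P_top

theorem PP_top' : Tendsto (fun n : ℕ => (P (P n) : ℝ)) atTop atTop :=
  tendsto_natCast_atTop_atTop.comp (P_top.comp P_top)

theorem PP_log : Tendsto (fun n : ℕ => Real.log (P (P n)) / Real.log n) atTop (𝓝 1) := by
  have h1 := (P_log.comp P_top).mul P_log
  rw [mul_one] at h1
  refine h1.congr' ?_
  filter_upwards [(nlog.comp P_top).eventually_ge_atTop 1] with n hn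
  simp only [Function.comp] at hn ⊢
  have : Real.log (P n) ≠ 0 := by linarith
  field_simp

theorem PP_le : ∀ᶠ n : ℕ in atTop, n ≤ P (P n) ∧ (P (P n) : ℝ) ≤ 32 * (n * Real.log n ^ 2) := by
  have h2 : ∀ᶠ n : ℕ in atTop, Real.log (P n) / Real.log n < 2 :=
    P_log.eventually (gt_mem_nhds (by norm_num))
  filter_upwards [P_le, P_top.eventually P_le, h2, nlog.eventually_ge_atTop 1, eventually_ge_atTop 1]
    with n h3 h4 h5 h6 h7
  have hP := P_ge n h7
  have hPP := P_ge (P n) (by omega)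
  refine ⟨by omega, ?_⟩
  rw [div_lt_iff₀ (by linarith)] at h5
  have hn0 : (0 : ℝ) ≤ n := Nat.cast_nonneg n
  have hl0 : 0 ≤ Real.log (P n) := Real.log_natCast_nonneg _
  calc (P (P n) : ℝ) ≤ 4 * (P n * Real.log (P n)) := h4
    _ ≤ 4 * ((4 * (n * Real.log n)) * (2 * Real.log n)) := by
        apply mul_le_mul_of_nonneg_left _ (by norm_num)
        exact mul_le_mul h3 h5.le hl0 (by positivity)
    _ = _ := by ring

/-- few integers are small -/
theorem few_small (n : ℕ) (V : ℝ) (hV : 0 ≤ V) :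
    (((Icc 1 (n - 1)).filter fun s : ℕ => (s : ℝ) < V).card : ℝ) ≤ V := by
  have h1 : ((Icc 1 (n - 1)).filter fun s : ℕ => (s : ℝ) < V) ⊆ Icc 1 ⌊V⌋₊ := by
    intro s hs
    rw [mem_filter, mem_Icc] at hs
    rw [mem_Icc]
    exact ⟨hs.1.1, Nat.le_floor hs.2.le⟩
  have h2 := Finset.card_le_card h1
  rw [Nat.card_Icc, Nat.add_sub_cancel] at h2
  calc _ ≤ ((⌊V⌋₊ : ℕ) : ℝ) := by exact_mod_cast h2
    _ ≤ V := Nat.floor_le hV

theorem few_big (n : ℕ) (V : ℝ) (hV : 0 ≤ V) :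
    (((Icc 1 (n - 1)).filter fun s : ℕ => ((n - s : ℕ) : ℝ) < V).card : ℝ) ≤ V := by
  refine le_trans ?_ (few_small n V hV)
  have h1 : ((Icc 1 (n - 1)).filter fun s : ℕ => ((n - s : ℕ) : ℝ) < V).card ≤
      ((Icc 1 (n - 1)).filter fun s : ℕ => (s : ℝ) < V).card := by
    refine Finset.card_le_card_of_injOn (fun s => n - s) ?_ ?_
    · intro s hs
      rw [Finset.mem_coe, mem_filter, mem_Icc] at hs
      show n - s ∈ ((((Icc 1 (n - 1)).filter fun s : ℕ => (s : ℝ) < V) : Finset ℕ) : Set ℕ)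
      rw [Finset.mem_coe, mem_filter, mem_Icc]
      exact ⟨⟨by omega, by omega⟩, hs.2⟩
    · intro s hs t ht hst
      rw [Finset.mem_coe, mem_filter, mem_Icc] at hs ht
      simp only at hst
      omega
  exact_mod_cast h1

/-- products of three factors close to `1 / 2` -/
theorem tri (x y z e : ℝ) (he0 : 0 ≤ e) (he : e ≤ 1 / 2) (hx : |x - 1 / 2| ≤ e) (hy : |y - 1 / 2| ≤ e)
    (hz : |z - 1 / 2| ≤ e) : |x * y * z - 1 / 8| ≤ 2 * e := by
  have e1 : x * y * z - 1 / 8 = (x - 1 / 2) * (y * z) + 1 / 2 * (y - 1 / 2) * z + 1 / 4 * (z - 1 / 2) := by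
    ring
  have hy1 : |y| ≤ 1 := by
    rw [abs_le] at hy ⊢
    constructor <;> linarith
  have hz1 : |z| ≤ 1 := by
    rw [abs_le] at hz ⊢
    constructor <;> linarith
  rw [e1]
  refine (abs_add_le _ _).trans ?_
  refine (add_le_add (abs_add_le _ _) le_rfl).trans ?_
  rw [abs_mul, abs_mul, abs_mul, abs_mul, abs_mul, abs_of_pos (show (0 : ℝ) < 1 / 2 by norm_num),
    abs_of_pos (show (0 : ℝ) < 1 / 4 by norm_num)]
  have h1 : |x - 1 / 2| * (|y| * |z|) ≤ e * 1 :=
    mul_le_mul hx (mul_le_one₀ hy1 (abs_nonneg _) hz1) (by positivity) he0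
  have h2 : 1 / 2 * |y - 1 / 2| * |z| ≤ 1 / 2 * e * 1 :=
    mul_le_mul (mul_le_mul_of_nonneg_left hy (by norm_num)) hz1 (abs_nonneg _) (by positivity)
  linarith

end Pool.Agent.U996.GB
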