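import Pool.Agent.Results.MP_4011c3_nt.AlmostAllAlmostPrime

/-!
# Representations `n = p + m q + r` with primes `p`, `q` for almost all admissible `n`

The lower bound `n / log ^ C n` for the number of the representations, from the theorem `pb_main` of the starting
files.
-/

set_option autoImplicit false

namespace Pool.Agent.U996.GB

open Finset Polynomial Pool.Agent.H373R2.T7 Pool.Agent.H373R2.T7.TB Pool.Agent.H373R2.T7.PB
open Pool.Agent.Results.MP_4011c3_nt.AlmostAllAlmostPrime (loc prod_eF GG_eval noFixed XCount_low)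

/-- the empty family of polynomials -/
noncomputable def F0 : Fin 0 → ℤ[X] := fun i => i.elim0

lemma prod_eF0 (n : ℤ) : (∏ i, (PArg.eF F0 i).eval n) = n := by
  rw [Fin.prod_univ_succ, Fin.prod_univ_zero, mul_one]
  have h1 : (PArg.eF F0 0) = X := by unfold PArg.eF; simp
  rw [h1, eval_X]

lemma noFixed0 (m N : ℕ) (hcop : N.Coprime m) (hodd : Odd (N + m)) :
    NoFixed (PArg.eF F0) (C (m : ℤ) * X) N := by
  intro p hp
  obtain ⟨n, hn⟩ := noFixed m N hcop hodd p hp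
  refine ⟨n, fun h => hn ?_⟩
  rw [prod_eF0] at h
  rw [prod_eF]
  have e : n * (n ^ 2 - 2) * ((N : ℤ) - (C (m : ℤ) * X : ℤ[X]).eval n) =
      n * ((N : ℤ) - (C (m : ℤ) * X : ℤ[X]).eval n) * (n ^ 2 - 2) := by ring
  rw [e]
  exact Dvd.dvd.mul_right h _

/-- the number of the primes `p < n` such that `(n - p) / m` is prime -/
def cnt (m n : ℕ) : ℕ := ((range n).filter fun p : ℕ => p.Prime ∧ ((n - p) / m).Prime).card

open Classical in
lemma WP_le (m n r y x : ℕ) (hm : 1 ≤ m) (hr : r < m) (hn : r < n) (hnx : n ≤ x) :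
    WP F0 (C (m : ℤ) * X) (n - r) y x ≤ cnt m n * Real.log x ^ 2 := by
  unfold WP
  obtain ⟨A, hA⟩ : ∃ A, A = (Icc 1 x).filter (fun p : ℕ => p.Prime ∧
    (((n - r : ℕ) : ℤ) - (C (m : ℤ) * X : ℤ[X]).eval (p : ℤ)).toNat.Prime ∧ Rough F0 y p) := ⟨_, rfl⟩
  rw [← hA]
  have hx1 : (1 : ℝ) ≤ x := by exact_mod_cast (by omega : 1 ≤ x)
  have hL0 : 0 ≤ Real.log x := Real.log_nonneg hx1
  have hmem : ∀ q ∈ A, q ≤ x ∧ q.Prime ∧ m * q + 2 ≤ n - r ∧ (n - r - m * q).Prime := by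
    intro q hq
    rw [hA, mem_filter, mem_Icc, GG_eval] at hq
    obtain ⟨⟨q1, q2⟩, q3, q4, _⟩ := hq
    have h2 := q4.two_le
    have h3 : m * q + 2 ≤ n - r := by
      have : (2 : ℤ) ≤ ((n - r : ℕ) : ℤ) - m * q := by omega
      have h4 : ((m * q + 2 : ℕ) : ℤ) ≤ ((n - r : ℕ) : ℤ) := by
        push_cast
        linarith
      exact_mod_cast h4
    refine ⟨q2, q3, h3, ?_⟩
    have h4 : (((n - r : ℕ) : ℤ) - m * q).toNat = n - r - m * q := by
      have : ((n - r : ℕ) : ℤ) - m * q = ((n - r - m * q : ℕ) : ℤ) := by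
        rw [Nat.cast_sub (by omega : m * q ≤ n - r)]
        push_cast
        ring
      rw [this, Int.toNat_natCast]
    rw [h4] at q4
    exact q4
  have h1 : ∀ q ∈ A, Real.log q * Real.log ((((n - r : ℕ) : ℤ) - (C (m : ℤ) * X : ℤ[X]).eval (q : ℤ) : ℤ) : ℝ) ≤
      Real.log x ^ 2 := by
    intro q hq
    obtain ⟨q2, q3, q4, q5⟩ := hmem q hq
    have e1 : ((((n - r : ℕ) : ℤ) - (C (m : ℤ) * X : ℤ[X]).eval (q : ℤ) : ℤ) : ℝ) = ((n - r - m * q : ℕ) : ℝ) := by
      rw [GG_eval, Nat.cast_sub (by omega : m * q ≤ n - r)]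
      push_cast
      ring
    rw [e1, pow_two]
    have h2 : Real.log q ≤ Real.log x :=
      Real.log_le_log (by exact_mod_cast q3.pos) (by exact_mod_cast q2)
    have h3 : Real.log ((n - r - m * q : ℕ) : ℝ) ≤ Real.log x :=
      Real.log_le_log (by exact_mod_cast q5.pos) (by exact_mod_cast (by omega : n - r - m * q ≤ x))
    exact mul_le_mul h2 h3 (Real.log_natCast_nonneg _) hL0
  have h2 := Finset.sum_le_card_nsmul A _ _ h1
  refine h2.trans ?_
  rw [nsmul_eq_mul]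
  apply mul_le_mul_of_nonneg_right _ (by positivity)
  have h3 : A.card ≤ cnt m n := by
    unfold cnt
    apply Finset.card_le_card_of_injOn (fun q => n - r - m * q)
    · intro q hq
      obtain ⟨q2, q3, q4, q5⟩ := hmem q hq
      rw [Finset.mem_coe, mem_filter, mem_range]
      have e1 : n - (n - r - m * q) = r + m * q := by omega
      show n - r - m * q < n ∧ (n - r - m * q).Prime ∧ ((n - (n - r - m * q)) / m).Prime
      have e2 : 0 < m * q := Nat.mul_pos (by omega) q3.pos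
      refine ⟨by omega, q5, ?_⟩
      rw [e1, Nat.add_mul_div_left _ _ (by omega), Nat.div_eq_of_lt hr, zero_add]
      exact q3
    · intro q hq q' hq' hqq
      obtain ⟨_, _, q4, _⟩ := hmem q hq
      obtain ⟨_, _, q4', _⟩ := hmem q' hq'
      simp only at hqq
      have h5 : m * q = m * q' := by omega
      exact Nat.eq_of_mul_eq_mul_left (by omega) h5
  exact_mod_cast h3

/-- the pair `(m, n)` is admissible -/
def Adm (m n : ℕ) : Prop :=
  2 * m + 1 < n ∧ ((m = 1 ∧ Even n) ∨ (m = 3 ∧ ¬ n ≡ 1 [MOD 6]) ∨ m = 2 ∨ 4 ≤ m)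

open Classical in
theorem gold (m : ℕ) (hm : 1 ≤ m) : ∃ C : ℕ, ∀ U : ℕ, ∃ M0 : ℕ, ∀ M : ℕ, M0 ≤ M →
    (((Ioc (M / 2) M).filter fun n : ℕ => Adm m n ∧ ¬ ((M : ℝ) / Real.log M ^ C ≤ cnt m n)).card : ℝ) ≤
      M / Real.log M ^ U := by
  obtain ⟨K, hK, hmain⟩ := pb_main 1 (1 / 2) (by norm_num)
  have hmr : (1 : ℝ) ≤ m := by exact_mod_cast hm
  have hdegG : (Polynomial.C (m : ℤ) * Polynomial.X : ℤ[X]).natDegree = 1 :=
    natDegree_C_mul_X _ (by exact_mod_cast (by omega : m ≠ 0))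
  have hlcG : 0 < (Polynomial.C (m : ℤ) * Polynomial.X : ℤ[X]).leadingCoeff := by
    rw [leadingCoeff_C_mul_X]
    exact_mod_cast (by omega : 0 < m)
  obtain ⟨c0, C2, N2, hc0, hlow⟩ := main_lowP F0 (fun i => i.elim0) (fun i => i.elim0)
    (Polynomial.C (m : ℤ) * Polynomial.X) (by rw [hdegG]) hlcG
  refine ⟨C2 + 3, fun U => ?_⟩
  obtain ⟨B0, h1⟩ := hmain 0 F0 (fun i => i.elim0) (fun i => i.elim0) (Polynomial.C (m : ℤ) * Polynomial.X)
    (by rw [hdegG]) hlcG (by rw [hdegG]; simp) 1 (U + 1) (1 / (8 * m)) le_rfl (by positivity)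
  obtain ⟨x0, h2⟩ := h1 (B0 + 2)
  obtain ⟨n1, h3⟩ := ev_L' (m + 2 + N2 + 16 * m / c0)
  obtain ⟨n2, h4⟩ := ev_log' ((B0 + 2) * K) 1
  refine ⟨x0 + n1 + n2 + 8 * m + 4, fun M hM => ?_⟩
  have hL := h3 M (by omega)
  have hLs := h4 M (by omega)
  have hex := h2 M (by omega) M (by rw [hdegG, one_mul, pow_one]) (by rw [hdegG, one_mul, pow_one])
  rw [one_mul] at hLs
  clear h1 h2 h3 h4 hmain
  have hM0 : (0 : ℝ) < M := by exact_mod_cast (by omega : 0 < M)
  have hfc : 0 ≤ 16 * (m : ℝ) / c0 := by positivity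
  have hN2r : (0 : ℝ) ≤ N2 := Nat.cast_nonneg _
  have hlow' := fun N => hlow N
  obtain ⟨L, hLd⟩ : ∃ L, L = Real.log M := ⟨_, rfl⟩
  rw [← hLd] at hL hLs hex ⊢
  have hL2 : 2 ≤ L := by linarith
  have hL1 : 1 ≤ L := by linarith
  have hL0 : 0 < L := by linarith
  obtain ⟨z, hz⟩ : ∃ z, z = ⌈L ^ (B0 + 1)⌉₊ := ⟨_, rfl⟩
  have hz1 : L ^ (B0 + 1) ≤ z := by rw [hz]; exact Nat.le_ceil _
  have hz1' : L ^ B0 ≤ z := (pow_le_pow_right₀ hL1 (by omega)).trans hz1
  have hz2 : (z : ℝ) ≤ L ^ (B0 + 2) := by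
    have h5 : (z : ℝ) < L ^ (B0 + 1) + 1 := by rw [hz]; exact Nat.ceil_lt_add_one (by positivity)
    have h6 : 1 ≤ L ^ (B0 + 1) := one_le_pow₀ hL1
    calc (z : ℝ) ≤ L ^ (B0 + 1) + 1 := h5.le
      _ ≤ L ^ (B0 + 1) * 2 := by linarith
      _ ≤ L ^ (B0 + 1) * L := mul_le_mul_of_nonneg_left hL2 (by positivity)
      _ = L ^ (B0 + 2) := by rw [← pow_succ]
  have hzK : z ^ K ≤ M := by
    have h5 : ((z ^ K : ℕ) : ℝ) ≤ M := by
      push_cast
      calc (z : ℝ) ^ K ≤ (L ^ (B0 + 2)) ^ K := pow_le_pow_left₀ (Nat.cast_nonneg _) hz2 K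
        _ = L ^ ((B0 + 2) * K) := by rw [← pow_mul]
        _ ≤ √(M : ℝ) := hLs
        _ ≤ M := by
          rw [Real.sqrt_le_left hM0.le]
          have : (1 : ℝ) ≤ M := by exact_mod_cast (by omega : 1 ≤ M)
          nlinarith
    exact_mod_cast h5
  have hzM : z ≤ M := (Nat.le_self_pow (by omega) z).trans hzK
  have hN2 : N2 ≤ z := by
    have h5 : (N2 : ℝ) ≤ z := by
      calc (N2 : ℝ) ≤ L := by linarith
        _ = L ^ 1 := (pow_one _).symm
        _ ≤ L ^ (B0 + 1) := pow_le_pow_right₀ hL1 (by omega)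
        _ ≤ z := hz1
    exact_mod_cast h5
  have hcard := hex z z hz1' hz2 le_rfl hzK
  obtain ⟨Exc, hExc⟩ : ∃ Exc, Exc = (Icc 1 M).filter (fun N : ℕ =>
      ¬ (NoFixed (PArg.eF F0) (Polynomial.C (m : ℤ) * Polynomial.X) N →
      1 / (8 * (m : ℝ)) * M ≤ SHN.XCount (Polynomial.C (m : ℤ) * Polynomial.X) N M →
        |WP F0 (Polynomial.C (m : ℤ) * Polynomial.X) N z M - TP F0 (Polynomial.C (m : ℤ) * Polynomial.X) N z z M| ≤
          1 / 2 * TP F0 (Polynomial.C (m : ℤ) * Polynomial.X) N z z M)) := ⟨_, rfl⟩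
  rw [← hExc] at hcard
  have hsub : (Ioc (M / 2) M).filter (fun n : ℕ => Adm m n ∧ ¬ ((M : ℝ) / L ^ (C2 + 3) ≤ cnt m n)) ⊆
      (range m).biUnion (fun r => Exc.image (fun N => N + r)) := by
    intro n hn
    rw [mem_filter, mem_Ioc] at hn
    obtain ⟨⟨hn1, hn2⟩, hadm, hrep⟩ := hn
    obtain ⟨r, hr, hcop, hodd⟩ := loc m n hm hadm
    rw [mem_biUnion]
    refine ⟨r, mem_range.2 hr, ?_⟩
    rw [mem_image]
    refine ⟨n - r, ?_, by omega⟩
    rw [hExc, mem_filter, mem_Icc]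
    refine ⟨⟨by omega, by omega⟩, ?_⟩
    intro hall
    apply hrep
    have hNF := noFixed0 m (n - r) hcop hodd
    have hX8 : (M : ℝ) / 8 ≤ ((n - r : ℕ) : ℝ) - m := by
      have h5 : M + 8 * m ≤ 8 * (n - r) := by omega
      have h6 : (M : ℝ) + 8 * m ≤ 8 * ((n - r : ℕ) : ℝ) := by exact_mod_cast h5
      linarith
    have hXl := XCount_low m (n - r) M hm (by omega) (by omega) hX8
    have h5 := hall hNF hXl
    have h7 := (abs_le.1 h5).1
    have h8 : c0 / L ^ C2 * (1 / (8 * (m : ℝ)) * M) ≤ TP F0 (Polynomial.C (m : ℤ) * Polynomial.X) (n - r) z z M := by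
      rw [TP_eq _ _ _ _ _ _ le_rfl]
      have h9 := hlow (n - r) z z M hN2 hzM hNF
      rw [← hLd] at h9
      exact mul_le_mul h9 hXl (by positivity) (le_trans (by positivity) h9)
    have h9 := WP_le m n r z M hm hr (by omega) hn2
    rw [← hLd] at h9
    have h10 : c0 / L ^ C2 * (1 / (8 * (m : ℝ)) * M) / 2 ≤ cnt m n * L ^ 2 := by linarith
    have h11 : 16 * (m : ℝ) ≤ L * c0 := by
      have : 16 * (m : ℝ) / c0 ≤ L := by linarith
      rwa [div_le_iff₀ hc0] at this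
    have h12 : (M : ℝ) / L ^ (C2 + 3) * L ^ 2 ≤ c0 / L ^ C2 * (1 / (8 * (m : ℝ)) * M) / 2 := by
      have e1 : (M : ℝ) / L ^ (C2 + 3) * L ^ 2 = M / L ^ C2 * (1 / L) := by
        rw [pow_add]
        field_simp
      have e2 : c0 / L ^ C2 * (1 / (8 * (m : ℝ)) * M) / 2 = M / L ^ C2 * (c0 / (16 * m)) := by
        field_simp
        ring
      rw [e1, e2]
      apply mul_le_mul_of_nonneg_left _ (by positivity)
      rw [div_le_div_iff₀ hL0 (by positivity)]
      linarith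
    have h13 := h12.trans h10
    exact le_of_mul_le_mul_right h13 (by positivity)
  have hc1 : ((Ioc (M / 2) M).filter (fun n : ℕ => Adm m n ∧ ¬ ((M : ℝ) / L ^ (C2 + 3) ≤ cnt m n))).card ≤
      m * Exc.card := by
    refine (card_le_card hsub).trans (card_biUnion_le.trans ?_)
    calc ∑ r ∈ range m, (Exc.image (fun N => N + r)).card ≤ ∑ _r ∈ range m, Exc.card :=
          sum_le_sum fun r _ => card_image_le
      _ = m * Exc.card := by rw [sum_const, card_range, smul_eq_mul]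
  have hc2 : (((Ioc (M / 2) M).filter (fun n : ℕ => Adm m n ∧ ¬ ((M : ℝ) / L ^ (C2 + 3) ≤ cnt m n))).card : ℝ) ≤
      m * Exc.card := by exact_mod_cast hc1
  refine hc2.trans ?_
  calc (m : ℝ) * Exc.card ≤ m * (M / L ^ (U + 1)) := mul_le_mul_of_nonneg_left hcard (by linarith)
    _ = (m / L) * (M / L ^ U) := by rw [pow_succ]; field_simp
    _ ≤ 1 * (M / L ^ U) := by
        apply mul_le_mul_of_nonneg_right _ (by positivity)
        rw [div_le_one hL0]
        linarith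
    _ = _ := one_mul _

end Pool.Agent.U996.GB
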