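import Pool.Agent.U996.GB.Pts

/-!
# Tuples of points: almost every vector of dilations, exceptional sets of targets
-/

set_option autoImplicit false

namespace Pool.Agent.U996.GB

open Finset MeasureTheory Filter Topology
open scoped ENNReal
open Pool.Agent.Y957.AD (PolyVar)
open Pool.Agent.Y957.VK
open Pool.Agent.U996.UW

theorem esq_sum {ι : Type} (s : Finset ι) (z : ι → ℂ) :
    ‖∑ i ∈ s, z i‖ₑ ^ 2 ≤ (s.card : ℝ≥0∞) * ∑ i ∈ s, ‖z i‖ₑ ^ 2 := by
  simp only [enorm_sq]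
  rw [← ENNReal.ofReal_natCast, ← ENNReal.ofReal_sum_of_nonneg fun i _ => by positivity,
    ← ENNReal.ofReal_mul (Nat.cast_nonneg _)]
  apply ENNReal.ofReal_le_ofReal
  refine (pow_le_pow_left₀ (norm_nonneg _) (norm_sum_le _ _) 2).trans ?_
  exact sq_sum_le_card_mul_sum_sq

/-- the factors other than the `i`-th -/
noncomputable def fac {k : ℕ} (b c : Fin (k + 1) → ℝ) (h : Fin (k + 1) → ℤ) (i : Fin (k + 1))
    (x : Fin (k + 1) → ℕ) (ω : Fin (k + 1) → ℝ) (j : Fin (k + 1)) : ℂ :=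
  if j = i then 1 else if j < i then sh pI (h j) (Real.exp (b j + ω j) * (x j : ℝ) ^ c j)
    else sh pR (h j) (Real.exp (b j + ω j) * (x j : ℝ) ^ c j)

theorem fac_le {k : ℕ} (b c : Fin (k + 1) → ℝ) (h : Fin (k + 1) → ℤ) (i : Fin (k + 1))
    (x : Fin (k + 1) → ℕ) (ω : Fin (k + 1) → ℝ) (j : Fin (k + 1)) : ‖fac b c h i x ω j‖ ≤ 1 := by
  unfold fac
  split_ifs
  · simp
  · exact sh_le pI_le _ _
  · exact sh_le pR_le _ _

theorem fac_update {k : ℕ} (b c : Fin (k + 1) → ℝ) (h : Fin (k + 1) → ℤ) (i : Fin (k + 1))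
    (x : Fin (k + 1) → ℕ) (ω : Fin (k + 1) → ℝ) (u : ℝ) (j : Fin (k + 1)) :
    fac b c h i x (Function.update ω i u) j = fac b c h i x ω j := by
  unfold fac
  by_cases hj : j = i
  · rw [if_pos hj, if_pos hj]
  · rw [Function.update_of_ne hj]

theorem fac_meas {k : ℕ} (b c : Fin (k + 1) → ℝ) (h : Fin (k + 1) → ℤ) (i : Fin (k + 1))
    (x : Fin (k + 1) → ℕ) (j : Fin (k + 1)) : Measurable fun ω => fac b c h i x ω j := by
  have hm : Measurable fun ω : Fin (k + 1) → ℝ => Real.exp (b j + ω j) * (x j : ℝ) ^ c j :=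
    (((measurable_pi_apply j).const_add _).exp).mul_const _
  unfold fac
  split_ifs
  · exact measurable_const
  · exact (sh_meas _ _).comp hm
  · exact (sh_meas _ _).comp hm

/-- the `i`-th term of the telescoping sum -/
noncomputable def tel {k : ℕ} (b c : Fin (k + 1) → ℝ) (h : Fin (k + 1) → ℤ) (T : Finset ℕ) (w : ℕ → ℝ)
    (x : Fin (k + 1) → ℕ → ℕ) (i : Fin (k + 1)) (ω : Fin (k + 1) → ℝ) : ℂ :=
  ∑ s ∈ T, ((w s : ℂ) * ∏ j, fac b c h i (fun j => x j s) ω j) *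
    sh (fun n => pI n - pR n) (h i) (Real.exp (b i + ω i) * (x i s : ℝ) ^ c i)

theorem tel_meas {k : ℕ} (b c : Fin (k + 1) → ℝ) (h : Fin (k + 1) → ℤ) (T : Finset ℕ) (w : ℕ → ℝ)
    (x : Fin (k + 1) → ℕ → ℕ) (i : Fin (k + 1)) : Measurable (tel b c h T w x i) := by
  unfold tel
  refine Finset.measurable_fun_sum _ fun s _ => ?_
  refine (Measurable.const_mul (Finset.measurable_fun_prod _ fun j _ => fac_meas b c h i _ j) _).mul ?_
  exact (sh_meas _ _).comp ((((measurable_pi_apply i).const_add _).exp).mul_const _)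

/-- the error: products of the indicator of the primes minus products of the densities -/
noncomputable def er3 {k : ℕ} (α c : Fin (k + 1) → ℝ) (h : Fin (k + 1) → ℤ) (T : Finset ℕ) (w : ℕ → ℝ)
    (x : Fin (k + 1) → ℕ → ℕ) : ℝ :=
  ∑ s ∈ T, w s * (∏ j, pz (⌊α j * (x j s : ℝ) ^ c j⌋ + h j) - ∏ j, rz (⌊α j * (x j s : ℝ) ^ c j⌋ + h j))

theorem er3_tel {k : ℕ} (b c : Fin (k + 1) → ℝ) (h : Fin (k + 1) → ℤ) (T : Finset ℕ) (w : ℕ → ℝ)
    (x : Fin (k + 1) → ℕ → ℕ) (ω : Fin (k + 1) → ℝ) :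
    ((er3 (fun j => Real.exp (b j + ω j)) c h T w x : ℝ) : ℂ) = ∑ i, tel b c h T w x i ω := by
  unfold er3 tel
  rw [Finset.sum_comm]
  push_cast
  refine Finset.sum_congr rfl fun s _ => ?_
  have hp : ∀ j, 0 ≤ Real.exp (b j + ω j) * (x j s : ℝ) ^ c j := fun j => by positivity
  have e1 : ∏ j, ((pz (⌊Real.exp (b j + ω j) * (x j s : ℝ) ^ c j⌋ + h j) : ℝ) : ℂ) =
      ∏ j, sh pI (h j) (Real.exp (b j + ω j) * (x j s : ℝ) ^ c j) :=
    Finset.prod_congr rfl fun j _ => (sh_pI (h j) _ (hp j)).symm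
  have e2 : ∏ j, ((rz (⌊Real.exp (b j + ω j) * (x j s : ℝ) ^ c j⌋ + h j) : ℝ) : ℂ) =
      ∏ j, sh pR (h j) (Real.exp (b j + ω j) * (x j s : ℝ) ^ c j) :=
    Finset.prod_congr rfl fun j _ => (sh_pR (h j) _ (hp j)).symm
  rw [e1, e2, prod_tele, Finset.mul_sum]
  refine Finset.sum_congr rfl fun i _ => ?_
  rw [mul_assoc]
  congr 1
  have e3 : sh (fun n => pI n - pR n) (h i) (Real.exp (b i + ω i) * (x i s : ℝ) ^ c i) =
      ∏ j, (if j = i then sh (fun n => pI n - pR n) (h i) (Real.exp (b i + ω i) * (x i s : ℝ) ^ c i)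
        else 1) := by
    rw [Finset.prod_ite_eq']
    simp
  rw [e3, ← Finset.prod_mul_distrib]
  refine Finset.prod_congr rfl fun j _ => ?_
  unfold fac
  rcases lt_trichotomy j i with h1 | h1 | h1
  · rw [if_pos h1, if_neg h1.ne, if_pos h1, if_neg h1.ne, mul_one]
  · subst h1
    rw [if_neg (lt_irrefl _), if_pos rfl, if_pos rfl, if_pos rfl, one_mul]
    rfl
  · rw [if_neg (not_lt.2 h1.le), if_neg h1.ne', if_neg h1.ne', if_neg (not_lt.2 h1.le), if_neg h1.ne',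
      mul_one]

/-- **Mean squares.** -/
theorem tuple_sq (k : ℕ) (b c : Fin (k + 1) → ℝ) (hc : ∀ i, 0 < c i) (h : Fin (k + 1) → ℤ)
    (T : ℕ → Finset ℕ) (w : ℕ → ℕ → ℝ) (hw : ∀ n s, |w n s| ≤ 1) (x : Fin (k + 1) → ℕ → ℕ → ℕ) (X : ℕ → ℕ)
    (hx : ∀ i n, ∀ s ∈ T n, 1 ≤ x i n s ∧ x i n s ≤ X n)
    (hinj : ∀ i n, ∀ s ∈ T n, ∀ t ∈ T n, x i n s = x i n t → s = t) (D : ℝ) (B : ℕ)
    (hX : ∀ᶠ n : ℕ in atTop, n ≤ X n ∧ (X n : ℝ) ≤ D * (n * Real.log n ^ B)) (K : ℕ) :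
    ∃ C : ℝ, 0 ≤ C ∧ ∀ᶠ n : ℕ in atTop,
      ∫⁻ ω, ‖er3 (fun j => Real.exp (b j + ω j)) c h (T n) (w n) (fun i => x i n)‖ₑ ^ 2 ∂(cube (k + 1)) ≤
        ENNReal.ofReal (C * (n ^ 2 / Real.log n ^ K)) := by
  have hch : ∀ i : Fin (k + 1), ∃ C : ℝ, 0 ≤ C ∧ ∀ n : ℕ, 2 ≤ X n →
      ∫⁻ ω, ‖tel b c h (T n) (w n) (fun i => x i n) i ω‖ₑ ^ 2 ∂(cube (k + 1)) ≤
        ENNReal.ofReal (C * ((X n : ℝ) ^ 2 / Real.log (X n) ^ (K + 2 * B))) := by
    intro i
    obtain ⟨C, hC, hp⟩ := pts_gen (sh (fun n => pI n - pR n) (h i)) (sh_le fp_le _) (sh_meas _ _)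
      (sh_var fp_le _) (sh_neg fp_le neg_fp _) (b i) (c i) (hc i) (K + 2 * B)
    refine ⟨C, hC, fun n hn => ?_⟩
    have h1 := hp k i ℕ (fun _ => T n)
      (fun ω s => (w n s : ℂ) * ∏ j, fac b c h i (fun j => x j n s) ω j) (fun _ s => x i n s) (X n) 1 hn
      (fun _ _ => rfl) (fun ω u => by
        funext s
        congr 1
        exact Finset.prod_congr rfl fun j _ => fac_update b c h i _ ω u j) (fun _ _ => rfl) (fun ω _ => by
        refine ⟨fun s _ => ?_, fun s hs => hx i n s hs, fun m => ?_⟩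
        · show ‖(w n s : ℂ) * ∏ j, fac b c h i (fun j => x j n s) ω j‖ ≤ 1
          rw [norm_mul, Complex.norm_real, norm_prod]
          refine mul_le_one₀ (hw n s) (by positivity) ?_
          exact Finset.prod_le_one (fun j _ => norm_nonneg _) fun j _ => fac_le b c h i _ ω j
        · rw [Finset.card_le_one]
          intro s hs t ht
          rw [mem_filter] at hs ht
          exact hinj i n s hs.1 t ht.1 (hs.2.trans ht.2.symm))
    refine h1.trans (le_of_eq ?_)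
    congr 1
    push_cast
    ring
  choose C hC hCb using hch
  refine ⟨((k : ℝ) + 1) * (∑ i, C i) * D ^ 2, by
    have := Finset.sum_nonneg fun i (_ : i ∈ (univ : Finset (Fin (k + 1)))) => hC i
    positivity, ?_⟩
  filter_upwards [hX, eventually_ge_atTop 2, nlog.eventually_ge_atTop 1] with n h1 h2 h3
  have hX2 : 2 ≤ X n := h2.trans h1.1
  have hn0 : (0 : ℝ) < n := by exact_mod_cast (by omega : 0 < n)
  have hl0 : 0 < Real.log n := by linarith
  have hXn : (n : ℝ) ≤ X n := by exact_mod_cast h1.1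
  have hX0 : (0 : ℝ) < X n := by linarith
  calc ∫⁻ ω, ‖er3 (fun j => Real.exp (b j + ω j)) c h (T n) (w n) (fun i => x i n)‖ₑ ^ 2 ∂(cube (k + 1)) ≤
        ∫⁻ ω, ((k + 1 : ℕ) : ℝ≥0∞) * ∑ i, ‖tel b c h (T n) (w n) (fun i => x i n) i ω‖ₑ ^ 2
          ∂(cube (k + 1)) := by
        refine lintegral_mono fun ω => ?_
        have e1 : ‖er3 (fun j => Real.exp (b j + ω j)) c h (T n) (w n) (fun i => x i n)‖ₑ =
            ‖∑ i, tel b c h (T n) (w n) (fun i => x i n) i ω‖ₑ := by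
          rw [← er3_tel]
          rw [← ofReal_norm, ← ofReal_norm, Complex.norm_real]
        show ‖er3 (fun j => Real.exp (b j + ω j)) c h (T n) (w n) (fun i => x i n)‖ₑ ^ 2 ≤ _
        rw [e1]
        refine (esq_sum _ _).trans (le_of_eq ?_)
        rw [Finset.card_univ, Fintype.card_fin]
    _ = ((k + 1 : ℕ) : ℝ≥0∞) * ∑ i, ∫⁻ ω, ‖tel b c h (T n) (w n) (fun i => x i n) i ω‖ₑ ^ 2
          ∂(cube (k + 1)) := by
        rw [lintegral_const_mul _ (Finset.measurable_fun_sum _ fun i _ =>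
          (tel_meas b c h _ _ _ i).enorm.pow_const 2),
          lintegral_finsetSum _ fun i _ => (tel_meas b c h _ _ _ i).enorm.pow_const 2]
    _ ≤ ((k + 1 : ℕ) : ℝ≥0∞) * ∑ i, ENNReal.ofReal (C i * ((X n : ℝ) ^ 2 / Real.log (X n) ^ (K + 2 * B))) := by
        gcongr with i
        exact hCb i n hX2
    _ = ENNReal.ofReal (((k + 1 : ℕ) : ℝ) * ∑ i, (C i * ((X n : ℝ) ^ 2 / Real.log (X n) ^ (K + 2 * B)))) := by
        have hlX : 0 ≤ Real.log (X n) := Real.log_natCast_nonneg _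
        rw [ENNReal.ofReal_mul (Nat.cast_nonneg _), ENNReal.ofReal_natCast,
          ENNReal.ofReal_sum_of_nonneg fun i _ => mul_nonneg (hC i) (by positivity)]
    _ ≤ _ := by
        apply ENNReal.ofReal_le_ofReal
        rw [← Finset.sum_mul]
        have hlog : Real.log n ≤ Real.log (X n) := Real.log_le_log hn0 hXn
        have h4 : (X n : ℝ) ^ 2 / Real.log (X n) ^ (K + 2 * B) ≤ D ^ 2 * (n ^ 2 / Real.log n ^ K) := by
          calc (X n : ℝ) ^ 2 / Real.log (X n) ^ (K + 2 * B) ≤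
                (D * (n * Real.log n ^ B)) ^ 2 / Real.log n ^ (K + 2 * B) := by
                apply div_le_div₀ (by positivity) (pow_le_pow_left₀ hX0.le h1.2 2) (by positivity)
                exact pow_le_pow_left₀ hl0.le hlog _
            _ = _ := by
                rw [pow_add, mul_pow, mul_pow, ← pow_mul, mul_comm B 2]
                field_simp
        have h5 : 0 ≤ ∑ i, C i := Finset.sum_nonneg fun i _ => hC i
        push_cast
        calc ((k : ℝ) + 1) * ((∑ i, C i) * ((X n : ℝ) ^ 2 / Real.log (X n) ^ (K + 2 * B))) ≤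
              ((k : ℝ) + 1) * ((∑ i, C i) * (D ^ 2 * (n ^ 2 / Real.log n ^ K))) := by gcongr
          _ = _ := by ring

/-- **Almost every vector of dilations**: all `n` outside a small exceptional set, relative to any given set. -/
theorem tuple_ae (k : ℕ) (c : Fin (k + 1) → ℝ) (hc : ∀ i, 0 < c i)
    (T : ℕ → Finset ℕ) (w : ℕ → ℕ → ℝ) (hw : ∀ n s, |w n s| ≤ 1) (x : Fin (k + 1) → ℕ → ℕ → ℕ) (X : ℕ → ℕ)
    (hx : ∀ i n, ∀ s ∈ T n, 1 ≤ x i n s ∧ x i n s ≤ X n)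
    (hinj : ∀ i n, ∀ s ∈ T n, ∀ t ∈ T n, x i n s = x i n t → s = t) (D : ℝ) (B : ℕ)
    (hX : ∀ᶠ n : ℕ in atTop, n ≤ X n ∧ (X n : ℝ) ≤ D * (n * Real.log n ^ B)) (R : Set ℕ) :
    ∀ᵐ α ∂((volume : Measure (Fin (k + 1) → ℝ)).restrict {α | ∀ i, 0 < α i}),
      ∀ (h : Fin (k + 1) → ℤ) (K : ℕ), ∀ᶠ i : ℕ in atTop,
        (((dy R i).filter fun n : ℕ => (n : ℝ) / Real.log n ^ K <
          |er3 α c h (T n) (w n) (fun i => x i n)|).card : ℝ) * i ^ K ≤ (dy R i).card := by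
  refine ae_cubes (k + 1) (fun α => ∀ (h : Fin (k + 1) → ℤ) (K : ℕ), ∀ᶠ i : ℕ in atTop,
        (((dy R i).filter fun n : ℕ => (n : ℝ) / Real.log n ^ K <
          |er3 α c h (T n) (w n) (fun i => x i n)|).card : ℝ) * i ^ K ≤ (dy R i).card) fun b => ?_
  rw [ae_all_iff]
  intro h
  have h1 := exc_real (cube (k + 1))
    (fun n ω => er3 (fun j => Real.exp ((b j : ℝ) + ω j)) c h (T n) (w n) (fun i => x i n))
    (fun n => by
      have h2 : Measurable fun ω : Fin (k + 1) → ℝ =>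
          ((er3 (fun j => Real.exp ((b j : ℝ) + ω j)) c h (T n) (w n) (fun i => x i n) : ℝ) : ℂ) := by
        simp only [er3_tel]
        exact Finset.measurable_fun_sum _ fun i _ => tel_meas _ c h _ _ _ i
      exact (Complex.measurable_re.comp h2))
    (fun K => tuple_sq k (fun j => (b j : ℝ)) c hc h T w hw x X hx hinj D B hX K) R
  exact h1

end Pool.Agent.U996.GB
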