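import Pool.Agent.U996.UW.One

/-!
# Main terms: uniform limits, averages, the size of the `n`-th prime
-/

set_option autoImplicit false

namespace Pool.Agent.U996.GB

open Finset Filter Topology
open Pool.Agent.U996.UW

theorem loglog_lim : Tendsto (fun N : ℕ => Real.log (Real.log N) / Real.log N) atTop (𝓝 0) := by
  have h1 : Tendsto (fun x : ℝ => Real.log x / x) atTop (𝓝 0) := by
    have := Real.isLittleO_log_id_atTop.tendsto_div_nhds_zero
    simpa using this
  exact h1.comp nlog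

/-- **Uniformity** in the range `n / (log n) ^ D ≤ k ≤ n`. -/
theorem unif (f : ℕ → ℝ) (a D : ℕ) (L : ℝ)
    (hf : Tendsto (fun k : ℕ => f k * Real.log k ^ a) atTop (𝓝 L)) (ε : ℝ) (hε : 0 < ε) :
    ∀ᶠ n : ℕ in atTop, ∀ k : ℕ, (n : ℝ) / Real.log n ^ D ≤ k → k ≤ n →
      |f k * Real.log n ^ a - L| ≤ ε := by
  obtain ⟨q, hq⟩ : ∃ q : ℕ → ℝ, q = fun N : ℕ => 1 - D * (Real.log (Real.log N) / Real.log N) := ⟨_, rfl⟩
  have hq1 : Tendsto q atTop (𝓝 1) := by
    rw [hq]
    have := (loglog_lim.const_mul (D : ℝ)).const_sub 1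
    simpa using this
  have hT : Tendsto (fun N => ((q N)⁻¹) ^ a) atTop (𝓝 1) := by
    have := (hq1.inv₀ one_ne_zero).pow a
    simpa using this
  obtain ⟨e, he⟩ : ∃ e : ℝ, e = min 1 (ε / (2 + |L|)) := ⟨_, rfl⟩
  have he0 : 0 < e := by rw [he]; positivity
  have he1 : e ≤ 1 := by rw [he]; exact min_le_left _ _
  have he2 : e * (2 + |L|) ≤ ε := by
    have h1 : e ≤ ε / (2 + |L|) := by rw [he]; exact min_le_right _ _
    calc e * (2 + |L|) ≤ ε / (2 + |L|) * (2 + |L|) := mul_le_mul_of_nonneg_right h1 (by positivity)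
      _ = ε := by field_simp
  obtain ⟨n0, hn0⟩ := (Metric.tendsto_atTop.1 hf) e he0
  have hbig : Tendsto (fun N : ℕ => (N : ℝ) / Real.log N ^ D) atTop atTop := by
    have h1 : Tendsto (fun x : ℝ => Real.log x ^ D / x) atTop (𝓝 0) := by
      have h2 := Real.isLittleO_pow_log_id_atTop (n := D)
      simpa using h2.tendsto_div_nhds_zero
    have h2 : Tendsto (fun x : ℝ => Real.log x ^ D / x) atTop (𝓝[>] 0) := by
      rw [tendsto_nhdsWithin_iff]
      refine ⟨h1, ?_⟩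
      filter_upwards [eventually_gt_atTop (1 : ℝ)] with x hx
      have h5 := Real.log_pos hx
      have h6 : 0 < x := by linarith
      exact div_pos (pow_pos h5 D) h6
    have h3 := h2.inv_tendsto_nhdsGT_zero
    refine (h3.comp tendsto_natCast_atTop_atTop).congr fun N => ?_
    simp
  have ev3 : ∀ᶠ N : ℕ in atTop, ((q N)⁻¹) ^ a < 1 + e := hT.eventually (gt_mem_nhds (by linarith))
  have ev4 : ∀ᶠ N : ℕ in atTop, 1 / 2 < q N := hq1.eventually (lt_mem_nhds (by norm_num))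
  filter_upwards [nlog.eventually_ge_atTop 1, ev3, ev4, hbig.eventually_ge_atTop ((n0 : ℝ) + 2),
    eventually_ge_atTop 2] with N a1 a3 a4 a5 a6 k hk1 hk2
  have hNr : (2 : ℝ) ≤ N := by exact_mod_cast a6
  have hNpos : (0 : ℝ) < N := by linarith
  obtain ⟨ℓ, hℓ⟩ : ∃ ℓ : ℝ, ℓ = Real.log N := ⟨_, rfl⟩
  rw [← hℓ] at a1 a5 hk1 ⊢
  have hℓ0 : 0 < ℓ := by linarith
  have hM0 : 0 < (N : ℝ) / ℓ ^ D := by positivity
  have hk0 : (0 : ℝ) < k := by linarith
  have hknn : n0 ≤ k := by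
    have : (n0 : ℝ) ≤ k := by linarith
    exact_mod_cast this
  have h1 := hn0 k hknn
  rw [Real.dist_eq] at h1
  have hlogn : ℓ * q N ≤ Real.log k := by
    have h2 : Real.log ((N : ℝ) / ℓ ^ D) ≤ Real.log k := Real.log_le_log hM0 hk1
    have h3 : Real.log ((N : ℝ) / ℓ ^ D) = ℓ * q N := by
      rw [Real.log_div hNpos.ne' (by positivity), Real.log_pow, hq]
      simp only
      rw [← hℓ]
      field_simp
    rw [← h3]
    exact h2
  have hlognN : Real.log k ≤ ℓ := by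
    rw [hℓ]
    exact Real.log_le_log hk0 (by exact_mod_cast hk2)
  have hqpos : 0 < q N := by linarith
  have hlog0 : 0 < Real.log k := lt_of_lt_of_le (by positivity) hlogn
  obtain ⟨r, hr⟩ : ∃ r : ℝ, r = (ℓ / Real.log k) ^ a := ⟨_, rfl⟩
  have hr1 : 1 ≤ r := by
    rw [hr]
    apply one_le_pow₀
    rw [one_le_div hlog0]
    exact hlognN
  have hr2 : r ≤ 1 + e := by
    refine le_trans ?_ a3.le
    rw [hr]
    apply pow_le_pow_left₀ (by positivity)
    rw [div_le_iff₀ hlog0]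
    calc ℓ = (q N)⁻¹ * (ℓ * q N) := by field_simp
      _ ≤ (q N)⁻¹ * Real.log k := mul_le_mul_of_nonneg_left hlogn (by positivity)
  have h4 : f k * ℓ ^ a - L = (f k * Real.log k ^ a - L) * r + L * (r - 1) := by
    rw [hr, div_pow]
    field_simp
    ring
  rw [h4]
  refine (abs_add_le _ _).trans ?_
  rw [abs_mul, abs_mul, abs_of_pos (show 0 < r by linarith), abs_of_nonneg (show 0 ≤ r - 1 by linarith)]
  have h5 : |f k * Real.log k ^ a - L| * r ≤ e * 2 :=
    mul_le_mul h1.le (by linarith) (by linarith) he0.le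
  have h6 : |L| * (r - 1) ≤ |L| * e := mul_le_mul_of_nonneg_left (by linarith) (abs_nonneg _)
  linarith

/-- **Averages** of quantities which are close to their limit with few exceptions. -/
theorem sum_lim {ι : Type} (T : ℕ → Finset ι) (w F : ℕ → ι → ℝ) (hw0 : ∀ n j, 0 ≤ w n j)
    (hw1 : ∀ n j, w n j ≤ 1) (hF0 : ∀ n j, 0 ≤ F n j) (hF1 : ∀ n j, F n j ≤ 1) (a B D : ℕ) (L C : ℝ)
    (hL : 0 ≤ L) (hC : 0 ≤ C) (hD : B + a + 1 ≤ D)
    (hs : ∀ᶠ n : ℕ in atTop, (n : ℝ) / Real.log n ^ B ≤ ∑ j ∈ T n, w n j)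
    (hF : ∀ ε : ℝ, 0 < ε → ∀ᶠ n : ℕ in atTop,
      (((T n).filter fun j => ε < |F n j * Real.log n ^ a - L|).card : ℝ) ≤ C * (n / Real.log n ^ D)) :
    Tendsto (fun n : ℕ => (∑ j ∈ T n, w n j * F n j) * Real.log n ^ a / ∑ j ∈ T n, w n j) atTop (𝓝 L) := by
  rw [Metric.tendsto_atTop]
  intro ε hε
  have hsm : Tendsto (fun N : ℕ => C * (1 + L) / Real.log N) atTop (𝓝 0) := nlog.const_div_atTop _
  have ev2 : ∀ᶠ N : ℕ in atTop, C * (1 + L) / Real.log N < ε / 2 :=
    hsm.eventually (gt_mem_nhds (by positivity))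
  obtain ⟨n1, hn1⟩ := (((nlog.eventually_ge_atTop 1).and ev2).and
    (hs.and ((hF (ε / 4) (by positivity)).and (eventually_ge_atTop 2)))).exists_forall_of_atTop
  refine ⟨n1, fun n hn => ?_⟩
  obtain ⟨⟨a1, a2⟩, a3, a4, a5⟩ := hn1 n hn
  have hN2 : (2 : ℝ) ≤ n := by exact_mod_cast a5
  have hN0 : (0 : ℝ) < n := by linarith
  obtain ⟨ℓ, hℓ⟩ : ∃ ℓ : ℝ, ℓ = Real.log n := ⟨_, rfl⟩
  rw [← hℓ] at a1 a2 a3 a4 ⊢
  have hℓ0 : 0 < ℓ := by linarith
  obtain ⟨s, hsd⟩ : ∃ s : ℝ, s = ∑ j ∈ T n, w n j := ⟨_, rfl⟩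
  rw [← hsd] at a3 ⊢
  have hs0 : 0 < s := lt_of_lt_of_le (by positivity) a3
  have hpt : ∀ j ∈ T n, w n j * |F n j * ℓ ^ a - L| ≤
      (if ε / 4 < |F n j * ℓ ^ a - L| then ℓ ^ a + L else 0) + w n j * (ε / 4) := by
    intro j _
    have hla : 0 ≤ ℓ ^ a := by positivity
    have hwe : 0 ≤ w n j * (ε / 4) := mul_nonneg (hw0 n j) (by positivity)
    split_ifs with hj
    · have h1 : |F n j * ℓ ^ a - L| ≤ ℓ ^ a + L := by
        rw [abs_le]
        constructor
        · have := mul_nonneg (hF0 n j) hla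
          linarith
        · have := mul_le_mul_of_nonneg_right (hF1 n j) hla
          linarith
      have h2 : w n j * |F n j * ℓ ^ a - L| ≤ 1 * (ℓ ^ a + L) :=
        mul_le_mul (hw1 n j) h1 (abs_nonneg _) zero_le_one
      linarith
    · rw [zero_add]
      exact mul_le_mul_of_nonneg_left (not_lt.1 hj) (hw0 n j)
  have e1 : (∑ j ∈ T n, w n j * F n j) * ℓ ^ a - L * s = ∑ j ∈ T n, w n j * (F n j * ℓ ^ a - L) := by
    rw [hsd, Finset.mul_sum, Finset.sum_mul, ← Finset.sum_sub_distrib]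
    exact Finset.sum_congr rfl fun j _ => by ring
  have hbig : |(∑ j ∈ T n, w n j * F n j) * ℓ ^ a - L * s| ≤
      C * (n / ℓ ^ D) * (ℓ ^ a + L) + s * (ε / 4) := by
    rw [e1]
    refine (Finset.abs_sum_le_sum_abs _ _).trans ?_
    have h1 : ∑ j ∈ T n, |w n j * (F n j * ℓ ^ a - L)| ≤
        ∑ j ∈ T n, ((if ε / 4 < |F n j * ℓ ^ a - L| then ℓ ^ a + L else 0) + w n j * (ε / 4)) := by
      refine Finset.sum_le_sum fun j hj => ?_
      rw [abs_mul, abs_of_nonneg (hw0 n j)]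
      exact hpt j hj
    refine h1.trans ?_
    rw [Finset.sum_add_distrib, ← Finset.sum_mul, ← hsd, ← Finset.sum_filter, Finset.sum_const,
      nsmul_eq_mul]
    have h2 := mul_le_mul_of_nonneg_right a4 (show 0 ≤ ℓ ^ a + L by positivity)
    linarith
  rw [Real.dist_eq]
  have e2 : (∑ j ∈ T n, w n j * F n j) * ℓ ^ a / s - L =
      ((∑ j ∈ T n, w n j * F n j) * ℓ ^ a - L * s) / s := by
    field_simp
  rw [e2, abs_div, abs_of_pos hs0, div_lt_iff₀ hs0]
  refine lt_of_le_of_lt hbig ?_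
  have h7 : C * (n / ℓ ^ D) * (ℓ ^ a + L) ≤ C * (1 + L) / ℓ * s := by
    have h8 : (n : ℝ) / ℓ ^ D ≤ n / ℓ ^ (B + a + 1) :=
      div_le_div_of_nonneg_left hN0.le (by positivity) (pow_le_pow_right₀ a1 hD)
    have h9 : ℓ ^ a + L ≤ (1 + L) * ℓ ^ a := by
      have : 1 ≤ ℓ ^ a := one_le_pow₀ a1
      nlinarith
    calc C * (n / ℓ ^ D) * (ℓ ^ a + L) ≤ C * (n / ℓ ^ (B + a + 1)) * ((1 + L) * ℓ ^ a) :=
          mul_le_mul (mul_le_mul_of_nonneg_left h8 hC) h9 (by positivity) (by positivity)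
      _ = C * (1 + L) / ℓ * (n / ℓ ^ B) := by
          rw [pow_add, pow_add, pow_one]
          field_simp
      _ ≤ _ := mul_le_mul_of_nonneg_left a3 (by positivity)
  have h10 : C * (1 + L) / ℓ * s ≤ ε / 2 * s := mul_le_mul_of_nonneg_right a2.le hs0.le
  nlinarith

/-- the `n`-th prime, `n ≥ 1` -/
noncomputable def P (n : ℕ) : ℕ := Nat.nth Nat.Prime (n - 1)

theorem P_prime (n : ℕ) : (P n).Prime := Nat.prime_nth_prime _

theorem P_ge (n : ℕ) (hn : 1 ≤ n) : n + 1 ≤ P n := by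
  have := Nat.add_two_le_nth_prime (n - 1)
  unfold P
  omega

theorem P_mono : Monotone P := by
  intro a b hab
  unfold P
  exact (Nat.nth_strictMono Nat.infinite_setOfPred_prime).monotone (by omega)

theorem P_lt {a b : ℕ} (ha : 1 ≤ a) (hab : a < b) : P a < P b := by
  unfold P
  exact Nat.nth_strictMono Nat.infinite_setOfPred_prime (by omega)

theorem P_pi (n : ℕ) (hn : 1 ≤ n) : Nat.primeCounting (P n) = n := by
  unfold Nat.primeCounting P
  have h1 := Nat.primeCounting'_nth_eq (n - 1)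
  unfold Nat.primeCounting' at h1 ⊢
  rw [Nat.count_succ, h1, if_pos (Nat.prime_nth_prime _)]
  omega

theorem P_top : Tendsto P atTop atTop := by
  refine tendsto_atTop_mono' atTop ?_ tendsto_id
  filter_upwards [eventually_ge_atTop 1] with n hn
  have := P_ge n hn
  simp only [id]
  omega

/-- `n log p_n / p_n → 1` -/
theorem P_lim : Tendsto (fun n : ℕ => (n : ℝ) * Real.log (P n) / P n) atTop (𝓝 1) := by
  have h1 := pnt.comp P_top
  refine h1.congr' ?_
  filter_upwards [eventually_ge_atTop 1] with n hn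
  simp only [Function.comp]
  rw [P_pi n hn]

/-- `log p_n / log n → 1` -/
theorem P_log : Tendsto (fun n : ℕ => Real.log (P n) / Real.log n) atTop (𝓝 1) := by
  have h1 : Tendsto (fun n : ℕ => Real.log ((n : ℝ) * Real.log (P n) / P n)) atTop (𝓝 (Real.log 1)) :=
    (Real.continuousAt_log one_ne_zero).tendsto.comp P_lim
  rw [Real.log_one] at h1
  have hlP : Tendsto (fun n : ℕ => Real.log (P n)) atTop atTop := nlog.comp P_top
  have h2 : Tendsto (fun n : ℕ => Real.log ((n : ℝ) * Real.log (P n) / P n) / Real.log (P n)) atTop (𝓝 0) := by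
    have := h1.div_atTop hlP
    exact this
  have h3 : Tendsto (fun n : ℕ => Real.log (Real.log (P n)) / Real.log (P n)) atTop (𝓝 0) :=
    loglog_lim.comp P_top
  have h4 : Tendsto (fun n : ℕ => Real.log n / Real.log (P n)) atTop (𝓝 1) := by
    have h5 := (h2.sub h3).add_const 1
    rw [sub_zero, zero_add] at h5
    refine h5.congr' ?_
    filter_upwards [eventually_ge_atTop 1, hlP.eventually_ge_atTop 1] with n hn hl
    have hn0 : (0 : ℝ) < n := by exact_mod_cast hn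
    have hP0 : (0 : ℝ) < P n := by exact_mod_cast (P_prime n).pos
    have hl0 : 0 < Real.log (P n) := by linarith
    rw [Real.log_div (by positivity) hP0.ne', Real.log_mul hn0.ne' hl0.ne']
    field_simp
    ring
  have h6 := h4.inv₀ one_ne_zero
  rw [inv_one] at h6
  refine h6.congr fun n => ?_
  rw [inv_div]

/-- `p_n ≤ 4 n log n` for large `n` -/
theorem P_le : ∀ᶠ n : ℕ in atTop, (P n : ℝ) ≤ 4 * (n * Real.log n) := by
  have h1 : ∀ᶠ n : ℕ in atTop, 1 / 2 < (n : ℝ) * Real.log (P n) / P n :=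
    P_lim.eventually (lt_mem_nhds (by norm_num))
  have h2 : ∀ᶠ n : ℕ in atTop, Real.log (P n) / Real.log n < 2 :=
    P_log.eventually (gt_mem_nhds (by norm_num))
  filter_upwards [h1, h2, nlog.eventually_ge_atTop 1] with n h3 h4 h5
  have hP0 : (0 : ℝ) < P n := by exact_mod_cast (P_prime n).pos
  have hn0 : (0 : ℝ) ≤ n := Nat.cast_nonneg n
  rw [lt_div_iff₀ hP0] at h3
  rw [div_lt_iff₀ (by linarith)] at h4
  have h6 : (n : ℝ) * Real.log (P n) ≤ n * (2 * Real.log n) := mul_le_mul_of_nonneg_left h4.le hn0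
  linarith

end Pool.Agent.U996.GB
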