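import Pool.Agent.U996.UW.Prod
import Pool.Agent.U996.UW.One

/-!
# Families of points which depend on the other coordinates; exceptional sets
-/

set_option autoImplicit false

namespace Pool.Agent.U996.GB

open Finset MeasureTheory Filter Topology
open scoped ENNReal
open Pool.Agent.Y957.AD (PolyVar)
open Pool.Agent.Y957.VK
open Pool.Agent.U996.UW

/-- the unit cube -/
noncomputable def cube (k : ℕ) : Measure (Fin k → ℝ) :=
  Measure.pi fun _ : Fin k => (volume : Measure ℝ).restrict (Set.Icc (0 : ℝ) 1)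

instance (k : ℕ) : IsFiniteMeasure (cube k) := by
  unfold cube
  infer_instance

/-- **Mean squares over one coordinate**: the index set, the weights and the points may depend on the other ones. -/
theorem pts_gen (A : ℝ → ℂ) (hA1 : ∀ x, ‖A x‖ ≤ 1) (hAm : Measurable A) (hAv : PolyVar A) (hAw : WNeg A)
    (b c : ℝ) (hc : 0 < c) (K : ℕ) : ∃ C : ℝ, 0 ≤ C ∧ ∀ (k : ℕ) (i : Fin (k + 1)) (ι : Type)
      (S : (Fin (k + 1) → ℝ) → Finset ι) (v : (Fin (k + 1) → ℝ) → ι → ℂ)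
      (x : (Fin (k + 1) → ℝ) → ι → ℕ) (X B : ℕ), 2 ≤ X →
      (∀ ω u, S (Function.update ω i u) = S ω) → (∀ ω u, v (Function.update ω i u) = v ω) →
      (∀ ω u, x (Function.update ω i u) = x ω) →
      (∀ ω, (∀ l, ω l ∈ Set.Icc (0 : ℝ) 1) → (∀ j ∈ S ω, ‖v ω j‖ ≤ 1) ∧
        (∀ j ∈ S ω, 1 ≤ x ω j ∧ x ω j ≤ X) ∧ ∀ m, ((S ω).filter fun j => x ω j = m).card ≤ B) →
      ∫⁻ ω, ‖∑ j ∈ S ω, v ω j * A (Real.exp (b + ω i) * (x ω j : ℝ) ^ c)‖ₑ ^ 2 ∂(cube (k + 1)) ≤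
        ENNReal.ofReal (C * B ^ 2 * (X ^ 2 / Real.log X ^ K)) := by
  obtain ⟨C, hC, h⟩ := full_map A hA1 hAm hAv hAw b c hc K
  refine ⟨C, hC, fun k i ι S v x X B hX hS hv hx hall => ?_⟩
  unfold cube
  refine cube_update k i _ _ fun ω hω => ?_
  obtain ⟨h1, h2, h3⟩ := hall ω hω
  refine le_trans (le_of_eq (lintegral_congr fun u => ?_)) (h ι (S ω) (v ω) (x ω) X B hX h1 h2 h3)
  rw [hS, hv, hx, Function.update_self]

open Classical in
/-- the members of `T` in `[2 ^ i, 2 ^ (i + 1))` -/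
noncomputable def dy (T : Set ℕ) (i : ℕ) : Finset ℕ := (Ico (2 ^ i) (2 ^ (i + 1))).filter fun n => n ∈ T

theorem dy_log {T : Set ℕ} {i n : ℕ} (hn : n ∈ dy T i) : (i : ℝ) * Real.log 2 ≤ Real.log n := by
  classical
  unfold dy at hn
  rw [mem_filter, mem_Ico] at hn
  rw [← Real.log_pow]
  apply Real.log_le_log (by positivity)
  exact_mod_cast hn.1.1

/-- **Exceptional sets.** -/
theorem exc {Ω : Type} [MeasurableSpace Ω] (m : Measure Ω) (g : ℕ → Ω → ℝ≥0∞) (hg : ∀ n, Measurable (g n))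
    (hK : ∀ K : ℕ, ∃ C : ℝ, 0 ≤ C ∧ ∀ᶠ n : ℕ in atTop,
      ∫⁻ ω, g n ω ∂m ≤ ENNReal.ofReal (C * (n ^ 2 / Real.log n ^ K))) (T : Set ℕ) :
    ∀ᵐ ω ∂m, ∀ K : ℕ, ∀ᶠ i : ℕ in atTop,
      (((dy T i).filter fun n : ℕ => ENNReal.ofReal ((n : ℝ) ^ 2 / Real.log n ^ K) < g n ω).card : ℝ) * i ^ K ≤
        (dy T i).card := by
  rw [ae_all_iff]
  intro K
  obtain ⟨C, hC, hev⟩ := hK (2 * K + 2)
  obtain ⟨n1, hn1⟩ := eventually_atTop.1 hev
  obtain ⟨i0, hi0⟩ : ∃ i0 : ℕ, i0 = n1 + 1 := ⟨_, rfl⟩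
  have hl2 : (0 : ℝ) < Real.log 2 := Real.log_pos (by norm_num)
  obtain ⟨Φ, hΦ⟩ : ∃ Φ : ℕ → Ω → ℝ≥0∞, Φ = fun i ω => ∑ n ∈ dy T (i + i0),
    ENNReal.ofReal (((i + i0 : ℕ) : ℝ) ^ K / (dy T (i + i0)).card * (Real.log n ^ K / n ^ 2)) * g n ω := ⟨_, rfl⟩
  have hpos : ∀ i, (0 : ℝ) < ((i + i0 : ℕ) : ℝ) := fun i => by
    exact_mod_cast (by omega : 0 < i + i0)
  have hnn : ∀ i, ∀ n ∈ dy T (i + i0), n1 ≤ n ∧ (0 : ℝ) < n ∧ 0 < Real.log n := by
    intro i n hn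
    have h1 := dy_log hn
    have h2 : 0 < Real.log n := lt_of_lt_of_le (mul_pos (hpos i) hl2) h1
    classical
    unfold dy at hn
    rw [mem_filter, mem_Ico] at hn
    have h3 : n1 < 2 ^ (i + i0) := lt_of_lt_of_le (by omega) (Nat.lt_two_pow_self (n := i + i0)).le
    have h4 : 0 < n := by omega
    exact ⟨by omega, by exact_mod_cast h4, h2⟩
  have hΦm : ∀ i, Measurable (Φ i) := fun i => by
    rw [hΦ]
    exact Finset.measurable_fun_sum _ fun n _ => (hg n).const_mul _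
  have hint : ∀ i, ∫⁻ ω, Φ i ω ∂m ≤ ENNReal.ofReal (C / Real.log 2 ^ (K + 2) * (1 / ((i + i0 : ℕ) : ℝ) ^ 2)) := by
    intro i
    rw [hΦ]
    simp only
    rw [lintegral_finsetSum _ fun n _ => (hg n).const_mul _]
    rcases Nat.eq_zero_or_pos (dy T (i + i0)).card with hc | hc
    · rw [Finset.card_eq_zero.1 hc]
      simp
    have hcr : (0 : ℝ) < (dy T (i + i0)).card := by exact_mod_cast hc
    have h1 : ∀ n ∈ dy T (i + i0), ∫⁻ ω, ENNReal.ofReal (((i + i0 : ℕ) : ℝ) ^ K / (dy T (i + i0)).card *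
        (Real.log n ^ K / n ^ 2)) * g n ω ∂m ≤
        ENNReal.ofReal (C / Real.log 2 ^ (K + 2) * (1 / ((i + i0 : ℕ) : ℝ) ^ 2) / (dy T (i + i0)).card) := by
      intro n hn
      obtain ⟨a1, a2, a3⟩ := hnn i n hn
      rw [lintegral_const_mul _ (hg n)]
      have hp := hpos i
      calc ENNReal.ofReal (((i + i0 : ℕ) : ℝ) ^ K / (dy T (i + i0)).card *
            (Real.log n ^ K / n ^ 2)) * ∫⁻ ω, g n ω ∂m ≤
            ENNReal.ofReal (((i + i0 : ℕ) : ℝ) ^ K / (dy T (i + i0)).card *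
            (Real.log n ^ K / n ^ 2)) * ENNReal.ofReal (C * (n ^ 2 / Real.log n ^ (2 * K + 2))) := by
            gcongr
            exact hn1 n a1
        _ = ENNReal.ofReal (((i + i0 : ℕ) : ℝ) ^ K / (dy T (i + i0)).card *
            (Real.log n ^ K / n ^ 2) * (C * (n ^ 2 / Real.log n ^ (2 * K + 2)))) := by
            rw [← ENNReal.ofReal_mul (by positivity)]
        _ ≤ _ := by
            apply ENNReal.ofReal_le_ofReal
            have h2 := dy_log hn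
            have h3 : (((i + i0 : ℕ) : ℝ) * Real.log 2) ^ (K + 2) ≤ Real.log n ^ (K + 2) :=
              pow_le_pow_left₀ (by positivity) h2 _
            have e1 : ((i + i0 : ℕ) : ℝ) ^ K / (dy T (i + i0)).card *
              (Real.log n ^ K / n ^ 2) * (C * (n ^ 2 / Real.log n ^ (2 * K + 2))) =
              ((i + i0 : ℕ) : ℝ) ^ K / (dy T (i + i0)).card * C / Real.log n ^ (K + 2) := by
              rw [show 2 * K + 2 = K + (K + 2) by ring, pow_add (Real.log (n : ℝ)) K (K + 2)]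
              field_simp
            rw [e1]
            calc ((i + i0 : ℕ) : ℝ) ^ K / (dy T (i + i0)).card * C / Real.log n ^ (K + 2) ≤
                  ((i + i0 : ℕ) : ℝ) ^ K / (dy T (i + i0)).card * C /
                    (((i + i0 : ℕ) : ℝ) * Real.log 2) ^ (K + 2) :=
                  div_le_div_of_nonneg_left (by positivity) (by positivity) h3
              _ = _ := by
                  rw [mul_pow, pow_add ((i + i0 : ℕ) : ℝ) K 2]
                  field_simp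
    refine (Finset.sum_le_sum h1).trans ?_
    rw [Finset.sum_const, nsmul_eq_mul, ← ENNReal.ofReal_natCast, ← ENNReal.ofReal_mul (Nat.cast_nonneg _)]
    apply ENNReal.ofReal_le_ofReal
    rw [mul_div_cancel₀ _ hcr.ne']
  have hfin : ∫⁻ ω, ∑' i, Φ i ω ∂m ≠ ⊤ := by
    rw [lintegral_tsum fun i => (hΦm i).aemeasurable]
    refine ne_top_of_le_ne_top ?_ (ENNReal.tsum_le_tsum hint)
    have h2 : Summable fun i : ℕ => C / Real.log 2 ^ (K + 2) * (1 / ((i + i0 : ℕ) : ℝ) ^ 2) := by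
      apply Summable.mul_left
      exact (summable_nat_add_iff (f := fun n : ℕ => 1 / (n : ℝ) ^ 2) i0).2
        (Real.summable_one_div_nat_pow.2 one_lt_two)
    exact h2.tsum_ofReal_ne_top
  have hae : ∀ᵐ ω ∂m, ∑' i, Φ i ω < ⊤ :=
    ae_lt_top' (AEMeasurable.ennreal_tsum fun i => (hΦm i).aemeasurable) hfin
  filter_upwards [hae] with ω hω
  have ht := ENNReal.tendsto_atTop_zero_of_tsum_ne_top hω.ne
  have hev1 : ∀ᶠ i : ℕ in atTop, Φ i ω < 1 := ht.eventually (gt_mem_nhds zero_lt_one)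
  obtain ⟨i1, hi1⟩ := hev1.exists_forall_of_atTop
  refine eventually_atTop.2 ⟨i1 + i0, fun i hi => ?_⟩
  obtain ⟨j, rfl⟩ : ∃ j, i = j + i0 := ⟨i - i0, by omega⟩
  have h1 := hi1 j (by omega)
  rcases Nat.eq_zero_or_pos (dy T (j + i0)).card with hc | hc
  · rw [Finset.card_eq_zero.1 hc]
    simp
  have hcr : (0 : ℝ) < (dy T (j + i0)).card := by exact_mod_cast hc
  have hp := hpos j
  have h2 : ENNReal.ofReal ((((dy T (j + i0)).filter fun n : ℕ => ENNReal.ofReal ((n : ℝ) ^ 2 / Real.log n ^ K) < g n ω).card : ℝ) *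
      (((j + i0 : ℕ) : ℝ) ^ K / (dy T (j + i0)).card)) ≤ Φ j ω := by
    rw [hΦ]
    simp only
    rw [ENNReal.ofReal_mul (Nat.cast_nonneg _), ENNReal.ofReal_natCast, ← nsmul_eq_mul, ← Finset.sum_const]
    refine le_trans (Finset.sum_le_sum fun n hn => ?_)
      (Finset.sum_le_sum_of_subset_of_nonneg (Finset.filter_subset _ _) fun n _ _ => bot_le)
    rw [mem_filter] at hn
    obtain ⟨a1, a2, a3⟩ := hnn j n hn.1
    calc ENNReal.ofReal (((j + i0 : ℕ) : ℝ) ^ K / (dy T (j + i0)).card) =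
          ENNReal.ofReal (((j + i0 : ℕ) : ℝ) ^ K / (dy T (j + i0)).card * (Real.log n ^ K / n ^ 2)) *
            ENNReal.ofReal (n ^ 2 / Real.log n ^ K) := by
          rw [← ENNReal.ofReal_mul (by positivity)]
          congr 1
          field_simp
      _ ≤ _ := by
          gcongr
          exact hn.2.le
  have h3 := lt_of_le_of_lt h2 h1
  rw [← ENNReal.ofReal_one, ENNReal.ofReal_lt_ofReal_iff one_pos, mul_div_assoc', div_lt_one hcr] at h3
  exact h3.le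

/-- the same for real-valued errors -/
theorem exc_real {Ω : Type} [MeasurableSpace Ω] (m : Measure Ω) (E : ℕ → Ω → ℝ) (hE : ∀ n, Measurable (E n))
    (hK : ∀ K : ℕ, ∃ C : ℝ, 0 ≤ C ∧ ∀ᶠ n : ℕ in atTop,
      ∫⁻ ω, ‖E n ω‖ₑ ^ 2 ∂m ≤ ENNReal.ofReal (C * (n ^ 2 / Real.log n ^ K))) (T : Set ℕ) :
    ∀ᵐ ω ∂m, ∀ K : ℕ, ∀ᶠ i : ℕ in atTop,
      (((dy T i).filter fun n : ℕ => (n : ℝ) / Real.log n ^ K < |E n ω|).card : ℝ) * i ^ K ≤
        (dy T i).card := by
  have h1 := exc m (fun n ω => ‖E n ω‖ₑ ^ 2) (fun n => (hE n).enorm.pow_const 2) hK T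
  filter_upwards [h1] with ω hω K
  filter_upwards [hω (2 * K), eventually_ge_atTop 1] with i hi hi1
  refine le_trans ?_ hi
  have hir : (1 : ℝ) ≤ i := by exact_mod_cast hi1
  have h2 : ((i : ℝ)) ^ K ≤ (i : ℝ) ^ (2 * K) := pow_le_pow_right₀ hir (by omega)
  refine mul_le_mul ?_ h2 (by positivity) (Nat.cast_nonneg _)
  have h3 : ((dy T i).filter fun n : ℕ => (n : ℝ) / Real.log n ^ K < |E n ω|) ⊆
      ((dy T i).filter fun n : ℕ => ENNReal.ofReal ((n : ℝ) ^ 2 / Real.log n ^ (2 * K)) < ‖E n ω‖ₑ ^ 2) := by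
    intro n hn
    rw [mem_filter] at hn ⊢
    refine ⟨hn.1, ?_⟩
    have h4 : ‖E n ω‖ₑ ^ 2 = ENNReal.ofReal (|E n ω| ^ 2) := by
      rw [← Real.norm_eq_abs, ENNReal.ofReal_pow (norm_nonneg _), ofReal_norm]
    have h5 := hn.2
    have h6 : 0 ≤ (n : ℝ) / Real.log n ^ K := by
      have := Real.log_natCast_nonneg n
      positivity
    have h7 : 0 < |E n ω| := lt_of_le_of_lt h6 h5
    rw [h4, ENNReal.ofReal_lt_ofReal_iff (by positivity)]
    have e1 : (n : ℝ) ^ 2 / Real.log n ^ (2 * K) = (n / Real.log n ^ K) ^ 2 := by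
      rw [div_pow, ← pow_mul]
      ring
    rw [e1]
    exact pow_lt_pow_left₀ h5 h6 (by norm_num)
  exact_mod_cast Finset.card_le_card h3

end Pool.Agent.U996.GB
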