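import Pool.Agent.U996.GB.TupleAe
import Pool.Agent.U996.GB.Sq

/-!
# `q = ⌊a t⌋` prime and a companion value of `q` prime
-/

set_option autoImplicit false

namespace Pool.Agent.U996.GB

open Finset MeasureTheory Filter Topology
open scoped ENNReal
open Pool.Agent.Y957.AD (PolyVar)
open Pool.Agent.Y957.VK
open Pool.Agent.U996.UW

/-- the fibres of `t ↦ ⌊a t⌋` -/
theorem fibre_nat (a : ℝ) (ha : 0 < a) (T : Finset ℕ) (m B : ℕ) (hB : 1 / a + 1 ≤ B) :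
    (T.filter fun t : ℕ => ⌊a * t⌋₊ = m).card ≤ B := by
  have h1 : (T.filter fun t : ℕ => ⌊a * t⌋₊ = m) ⊆ Ico ⌈(m : ℝ) / a⌉₊ ⌈((m : ℝ) + 1) / a⌉₊ := by
    intro t ht
    rw [mem_filter] at ht
    have h2 : 0 ≤ a * (t : ℝ) := by positivity
    rw [Nat.floor_eq_iff h2] at ht
    rw [mem_Ico]
    constructor
    · rw [Nat.ceil_le, div_le_iff₀ ha, mul_comm (t : ℝ)]
      exact ht.2.1
    · rw [Nat.lt_ceil, lt_div_iff₀ ha, mul_comm (t : ℝ)]
      exact ht.2.2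
  refine (Finset.card_le_card h1).trans ?_
  rw [Nat.card_Ico]
  have h2 := Nat.ceil_lt_add_one (show 0 ≤ ((m : ℝ) + 1) / a by positivity)
  have h3 := Nat.le_ceil ((m : ℝ) / a)
  have h4 : ((m : ℝ) + 1) / a = (m : ℝ) / a + 1 / a := by ring
  have h5 : ((⌈((m : ℝ) + 1) / a⌉₊ : ℕ) : ℝ) < (B : ℝ) + ((⌈(m : ℝ) / a⌉₊ : ℕ) : ℝ) := by linarith
  have h6 : ⌈((m : ℝ) + 1) / a⌉₊ < B + ⌈(m : ℝ) / a⌉₊ := by exact_mod_cast h5
  omega

/-- the first error: the companion value -/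
noncomputable def e1 (a γ : ℝ) (c : ℕ) (h : ℤ) (y : ℕ → ℕ) (w : ℕ → ℝ) (n : ℕ) : ℝ :=
  ∑ t ∈ (Icc 1 (n - 1)).filter fun t : ℕ => (⌊a * t⌋₊).Prime,
    w t * (pz (⌊γ * (y ⌊a * t⌋₊ : ℝ) ^ c⌋ + h) - rz (⌊γ * (y ⌊a * t⌋₊ : ℝ) ^ c⌋ + h))

/-- the second error: `⌊a t⌋` prime -/
noncomputable def e2 (a : ℝ) (w : ℕ → ℝ) (n : ℕ) : ℝ :=
  ∑ t ∈ Icc 1 (n - 1), w t * (pz (⌊a * t⌋ + 0) - rz (⌊a * t⌋ + 0))

theorem sh_pz (h : ℤ) (t : ℝ) (ht : 0 ≤ t) :
    sh (fun n => pI n - pR n) h t = ((pz (⌊t⌋ + h) - rz (⌊t⌋ + h) : ℝ) : ℂ) := by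
  have e : sh (fun n => pI n - pR n) h t = sh pI h t - sh pR h t := rfl
  rw [e, sh_pI h t ht, sh_pR h t ht]
  push_cast
  rfl

theorem e1_eq (b0 b1 : ℝ) (c : ℕ) (h : ℤ) (y : ℕ → ℕ) (w : ℕ → ℝ) (n : ℕ) (ω : Fin 2 → ℝ) :
    ((e1 (Real.exp (b0 + ω 0)) (Real.exp (b1 + ω 1)) c h y w n : ℝ) : ℂ) =
      ∑ t ∈ (Icc 1 (n - 1)).filter fun t : ℕ => (⌊Real.exp (b0 + ω 0) * t⌋₊).Prime,
        (w t : ℂ) * sh (fun n => pI n - pR n) h (Real.exp (b1 + ω 1) *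
          ((y ⌊Real.exp (b0 + ω 0) * t⌋₊ : ℕ) : ℝ) ^ (c : ℝ)) := by
  unfold e1
  push_cast
  refine Finset.sum_congr rfl fun t _ => ?_
  rw [sh_pz h _ (by positivity), Real.rpow_natCast]
  push_cast
  rfl

theorem e2_eq (b0 : ℝ) (w : ℕ → ℝ) (n : ℕ) (ω : Fin 2 → ℝ) :
    ((e2 (Real.exp (b0 + ω 0)) w n : ℝ) : ℂ) =
      ∑ t ∈ Icc 1 (n - 1), (w t : ℂ) * sh (fun n => pI n - pR n) 0 (Real.exp (b0 + ω 0) *
          (t : ℝ) ^ (1 : ℝ)) := by
  unfold e2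
  push_cast
  refine Finset.sum_congr rfl fun t _ => ?_
  rw [Real.rpow_one, sh_pz 0 _ (by positivity)]
  push_cast
  rfl

theorem q_meas (b0 : ℝ) (t : ℕ) : Measurable fun ω : Fin 2 → ℝ => ⌊Real.exp (b0 + ω 0) * t⌋₊ :=
  Nat.measurable_floor.comp ((((measurable_pi_apply 0).const_add _).exp).mul_const _)

theorem e1_meas (b0 b1 : ℝ) (c : ℕ) (h : ℤ) (y : ℕ → ℕ) (w : ℕ → ℝ) (n : ℕ) :
    Measurable fun ω : Fin 2 → ℝ => e1 (Real.exp (b0 + ω 0)) (Real.exp (b1 + ω 1)) c h y w n := by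
  have h2 : Measurable fun ω : Fin 2 → ℝ =>
      ((e1 (Real.exp (b0 + ω 0)) (Real.exp (b1 + ω 1)) c h y w n : ℝ) : ℂ) := by
    simp only [e1_eq, Finset.sum_filter]
    refine Finset.measurable_fun_sum _ fun t _ => ?_
    refine Measurable.ite ?_ ?_ measurable_const
    · exact (q_meas b0 t) (MeasurableSet.of_discrete (s := {m : ℕ | m.Prime}))
    · refine Measurable.const_mul ((sh_meas _ _).comp ?_) _
      refine Measurable.mul (((measurable_pi_apply 1).const_add _).exp) ?_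
      exact (measurable_from_nat (f := fun m : ℕ => ((y m : ℕ) : ℝ) ^ (c : ℝ))).comp (q_meas b0 t)
  exact (Complex.measurable_re.comp h2)

theorem e2_meas (b0 : ℝ) (w : ℕ → ℝ) (n : ℕ) :
    Measurable fun ω : Fin 2 → ℝ => e2 (Real.exp (b0 + ω 0)) w n := by
  have h2 : Measurable fun ω : Fin 2 → ℝ => ((e2 (Real.exp (b0 + ω 0)) w n : ℝ) : ℂ) := by
    simp only [e2_eq]
    refine Finset.measurable_fun_sum _ fun t _ => ?_
    exact Measurable.const_mul ((sh_meas _ _).comp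
      ((((measurable_pi_apply 0).const_add _).exp).mul_const _)) _
  exact (Complex.measurable_re.comp h2)

theorem enorm_rc (x : ℝ) : ‖x‖ₑ = ‖(x : ℂ)‖ₑ := by
  rw [← ofReal_norm, ← ofReal_norm, Complex.norm_real]

theorem e2_sq (b0 : ℝ) (w : ℕ → ℕ → ℝ) (hw : ∀ n t, |w n t| ≤ 1) (K : ℕ) :
    ∃ C : ℝ, 0 ≤ C ∧ ∀ᶠ n : ℕ in atTop,
      ∫⁻ ω, ‖e2 (Real.exp (b0 + ω 0)) (w n) n‖ₑ ^ 2 ∂(cube 2) ≤
        ENNReal.ofReal (C * (n ^ 2 / Real.log n ^ K)) := by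
  obtain ⟨C, hC, hp⟩ := pts_gen (sh (fun n => pI n - pR n) 0) (sh_le fp_le _) (sh_meas _ _)
    (sh_var fp_le _) (sh_neg fp_le neg_fp _) b0 1 one_pos K
  refine ⟨C, hC, ?_⟩
  filter_upwards [eventually_ge_atTop 2] with n hn
  have h1 := hp 1 0 ℕ (fun _ => Icc 1 (n - 1)) (fun _ t => (w n t : ℂ)) (fun _ t => t) n 1 hn
    (fun _ _ => rfl) (fun _ _ => rfl) (fun _ _ => rfl) (fun ω _ => by
      refine ⟨fun t _ => ?_, fun t ht => ?_, fun m => ?_⟩
      · show ‖(w n t : ℂ)‖ ≤ 1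
        rw [Complex.norm_real]
        exact hw n t
      · rw [mem_Icc] at ht
        exact ⟨ht.1, by show t ≤ n; omega⟩
      · rw [Finset.card_le_one]
        intro s hs t ht
        rw [mem_filter] at hs ht
        exact hs.2.trans ht.2.symm)
  refine le_trans (le_of_eq ?_) (h1.trans (le_of_eq ?_))
  · refine lintegral_congr fun ω => ?_
    rw [enorm_rc, e2_eq]
  · congr 1
    push_cast
    ring

theorem e1_sq (b0 b1 : ℝ) (c : ℕ) (hc : 1 ≤ c) (h : ℤ) (y : ℕ → ℕ) (hyP : ∀ q, 1 ≤ q → 1 ≤ y q ∧ y q ≤ P q)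
    (hyi : ∀ q q' : ℕ, q.Prime → q'.Prime → y q = y q' → q = q')
    (w : ℕ → ℕ → ℝ) (hw : ∀ n t, |w n t| ≤ 1) (K : ℕ) :
    ∃ C : ℝ, 0 ≤ C ∧ ∀ᶠ n : ℕ in atTop,
      ∫⁻ ω, ‖e1 (Real.exp (b0 + ω 0)) (Real.exp (b1 + ω 1)) c h y (w n) n‖ₑ ^ 2 ∂(cube 2) ≤
        ENNReal.ofReal (C * (n ^ 2 / Real.log n ^ K)) := by
  obtain ⟨C, hC, hp⟩ := pts_gen (sh (fun n => pI n - pR n) h) (sh_le fp_le _) (sh_meas _ _)
    (sh_var fp_le _) (sh_neg fp_le neg_fp _) b1 c (by exact_mod_cast hc) (K + 2)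
  obtain ⟨G, hG⟩ : ∃ G : ℕ, G = ⌈Real.exp (b0 + 1)⌉₊ + 1 := ⟨_, rfl⟩
  obtain ⟨B, hB⟩ : ∃ B : ℕ, B = ⌈1 / Real.exp b0⌉₊ + 1 := ⟨_, rfl⟩
  have hGr : Real.exp (b0 + 1) ≤ G := by
    rw [hG]
    push_cast
    have := Nat.le_ceil (Real.exp (b0 + 1))
    linarith
  have hG1 : 1 ≤ G := by omega
  have hBr : 1 / Real.exp b0 + 1 ≤ B := by
    rw [hB]
    push_cast
    have := Nat.le_ceil (1 / Real.exp b0)
    linarith
  have hPG : ∀ᶠ n : ℕ in atTop, n ≤ P (G * n) ∧ (P (G * n) : ℝ) ≤ 8 * G * (n * Real.log n) := by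
    have hGn : Tendsto (fun n : ℕ => G * n) atTop atTop := tendsto_id.const_mul_atTop' (by omega)
    filter_upwards [hGn.eventually P_le, eventually_ge_atTop G, eventually_ge_atTop 2] with n h1 h2 h3
    have h4 := P_ge (G * n) (by nlinarith)
    refine ⟨by nlinarith, h1.trans ?_⟩
    have hn0 : (0 : ℝ) < n := by exact_mod_cast (by omega : 0 < n)
    have hG0 : (0 : ℝ) < G := by exact_mod_cast (by omega : 0 < G)
    have h5 : Real.log ((G * n : ℕ) : ℝ) ≤ 2 * Real.log n := by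
      push_cast
      rw [Real.log_mul hG0.ne' hn0.ne']
      have : Real.log G ≤ Real.log n := Real.log_le_log hG0 (by exact_mod_cast h2)
      linarith
    calc 4 * (((G * n : ℕ) : ℝ) * Real.log ((G * n : ℕ) : ℝ)) ≤ 4 * (((G * n : ℕ) : ℝ) * (2 * Real.log n)) := by
          gcongr
      _ = _ := by
          push_cast
          ring
  refine ⟨C * B ^ 2 * (8 * G) ^ 2, by positivity, ?_⟩
  filter_upwards [hPG, eventually_ge_atTop 2, nlog.eventually_ge_atTop 1] with n hX hn hl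
  have hX2 : 2 ≤ P (G * n) := hn.trans hX.1
  have h1 := hp 1 1 ℕ (fun ω => (Icc 1 (n - 1)).filter fun t : ℕ => (⌊Real.exp (b0 + ω 0) * t⌋₊).Prime)
    (fun _ t => (w n t : ℂ)) (fun ω t => y ⌊Real.exp (b0 + ω 0) * t⌋₊) (P (G * n)) B hX2
    (fun ω u => by
      have e : Function.update ω 1 u 0 = ω 0 := Function.update_of_ne (by decide) _ _
      simp only [e]) (fun _ _ => rfl) (fun ω u => by
      have e : Function.update ω 1 u 0 = ω 0 := Function.update_of_ne (by decide) _ _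
      simp only [e]) (fun ω hω => by
      have ha1 : Real.exp b0 ≤ Real.exp (b0 + ω 0) := Real.exp_le_exp.2 (by linarith [(hω 0).1])
      have ha2 : Real.exp (b0 + ω 0) ≤ Real.exp (b0 + 1) := Real.exp_le_exp.2 (by linarith [(hω 0).2])
      have ha0 : 0 < Real.exp (b0 + ω 0) := Real.exp_pos _
      refine ⟨fun t _ => ?_, fun t ht => ?_, fun m => ?_⟩
      · show ‖(w n t : ℂ)‖ ≤ 1
        rw [Complex.norm_real]
        exact hw n t
      · rw [mem_filter, mem_Icc] at ht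
        obtain ⟨⟨t1, t2⟩, t3⟩ := ht
        have h2 := hyP _ t3.one_lt.le
        refine ⟨h2.1, h2.2.trans (P_mono ?_)⟩
        have h3 : (⌊Real.exp (b0 + ω 0) * t⌋₊ : ℝ) ≤ ((G * n : ℕ) : ℝ) := by
          refine (Nat.floor_le (by positivity)).trans ?_
          push_cast
          have h4 : (t : ℝ) ≤ n := by exact_mod_cast (by omega : t ≤ n)
          exact mul_le_mul (ha2.trans hGr) h4 (Nat.cast_nonneg _) (Nat.cast_nonneg _)
        exact_mod_cast h3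
      · rcases (((Icc 1 (n - 1)).filter fun t : ℕ => (⌊Real.exp (b0 + ω 0) * t⌋₊).Prime).filter
          fun t : ℕ => y ⌊Real.exp (b0 + ω 0) * t⌋₊ = m).eq_empty_or_nonempty with h2 | ⟨t0, ht0⟩
        · rw [h2]
          simp
        · rw [mem_filter, mem_filter] at ht0
          refine le_trans (Finset.card_le_card ?_)
            (fibre_nat (Real.exp (b0 + ω 0)) ha0 (Icc 1 (n - 1)) ⌊Real.exp (b0 + ω 0) * t0⌋₊ B ?_)
          · intro t ht
            rw [mem_filter, mem_filter] at ht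
            rw [mem_filter]
            exact ⟨ht.1.1, hyi _ _ ht.1.2 ht0.1.2 (ht.2.trans ht0.2.symm)⟩
          · have : 1 / Real.exp (b0 + ω 0) ≤ 1 / Real.exp b0 := one_div_le_one_div_of_le (Real.exp_pos _) ha1
            linarith)
  refine le_trans (le_of_eq ?_) (h1.trans (ENNReal.ofReal_le_ofReal ?_))
  · refine lintegral_congr fun ω => ?_
    rw [enorm_rc, e1_eq]
  · have hn0 : (0 : ℝ) < n := by exact_mod_cast (by omega : 0 < n)
    have hl0 : 0 < Real.log n := by linarith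
    have hXn : (n : ℝ) ≤ P (G * n) := by exact_mod_cast hX.1
    have hlog : Real.log n ≤ Real.log (P (G * n)) := Real.log_le_log hn0 hXn
    calc C * B ^ 2 * ((P (G * n) : ℝ) ^ 2 / Real.log (P (G * n)) ^ (K + 2)) ≤
          C * B ^ 2 * ((8 * G * (n * Real.log n)) ^ 2 / Real.log n ^ (K + 2)) := by
          apply mul_le_mul_of_nonneg_left _ (by positivity)
          apply div_le_div₀ (by positivity) (pow_le_pow_left₀ (Nat.cast_nonneg _) hX.2 2) (by positivity)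
          exact pow_le_pow_left₀ hl0.le hlog _
      _ = _ := by
          rw [pow_add]
          field_simp

end Pool.Agent.U996.GB
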