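import Pool.Agent.U996.GB.Slope

/-!
# Asymptotic formulas outside exceptional sets; almost every slope and almost every companion factor
-/

set_option autoImplicit false

namespace Pool.Agent.U996.GB

open Finset MeasureTheory Filter Topology
open scoped ENNReal
open Pool.Agent.Y957.AD (PolyVar)
open Pool.Agent.Y957.VK
open Pool.Agent.U996.UW

/-- averages, one `n` -/
theorem sum_pt {ι : Type} (T : Finset ι) (w F : ι → ℝ) (hw0 : ∀ j ∈ T, 0 ≤ w j) (hw1 : ∀ j ∈ T, w j ≤ 1)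
    (hF0 : ∀ j, 0 ≤ F j) (hF1 : ∀ j, F j ≤ 1) (a : ℕ) (L ε ℓ V : ℝ) (hL : 0 ≤ L) (hε : 0 ≤ ε) (hℓ : 0 ≤ ℓ)
    (hV : ((T.filter fun j => ε < |F j * ℓ ^ a - L|).card : ℝ) ≤ V) :
    |(∑ j ∈ T, w j * F j) * ℓ ^ a - L * ∑ j ∈ T, w j| ≤ V * (ℓ ^ a + L) + ε * ∑ j ∈ T, w j := by
  have hla : 0 ≤ ℓ ^ a := by positivity
  have e1 : (∑ j ∈ T, w j * F j) * ℓ ^ a - L * ∑ j ∈ T, w j = ∑ j ∈ T, w j * (F j * ℓ ^ a - L) := by
    rw [Finset.mul_sum, Finset.sum_mul, ← Finset.sum_sub_distrib]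
    exact Finset.sum_congr rfl fun j _ => by ring
  rw [e1]
  refine (Finset.abs_sum_le_sum_abs _ _).trans ?_
  have h1 : ∑ j ∈ T, |w j * (F j * ℓ ^ a - L)| ≤
      ∑ j ∈ T, ((if ε < |F j * ℓ ^ a - L| then ℓ ^ a + L else 0) + w j * ε) := by
    refine Finset.sum_le_sum fun j hj => ?_
    rw [abs_mul, abs_of_nonneg (hw0 j hj)]
    have hwe : 0 ≤ w j * ε := mul_nonneg (hw0 j hj) hε
    split_ifs with hc
    · have h2 : |F j * ℓ ^ a - L| ≤ ℓ ^ a + L := by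
        rw [abs_le]
        constructor
        · have := mul_nonneg (hF0 j) hla
          linarith
        · have := mul_le_mul_of_nonneg_right (hF1 j) hla
          linarith
      have h3 : w j * |F j * ℓ ^ a - L| ≤ 1 * (ℓ ^ a + L) :=
        mul_le_mul (hw1 j hj) h2 (abs_nonneg _) zero_le_one
      linarith
    · rw [zero_add]
      exact mul_le_mul_of_nonneg_left (not_lt.1 hc) (hw0 j hj)
  refine h1.trans ?_
  rw [Finset.sum_add_distrib, ← Finset.sum_mul, ← Finset.sum_filter, Finset.sum_const, nsmul_eq_mul]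
  have h2 := mul_le_mul_of_nonneg_right hV (show 0 ≤ ℓ ^ a + L by positivity)
  linarith

/-- the number of the solutions -/
noncomputable def rep2 (a γ : ℝ) (c : ℕ) (h : ℤ) (y : ℕ → ℕ) (w : ℕ → ℝ) (n : ℕ) : ℝ :=
  ∑ t ∈ (Icc 1 (n - 1)).filter fun t : ℕ => (⌊a * t⌋₊).Prime,
    w t * pz (⌊γ * (y ⌊a * t⌋₊ : ℝ) ^ c⌋ + h)

/-- **The asymptotic formula for one `n`.** -/
theorem slope_pt (a γ : ℝ) (ha : 0 < a) (hγ : 0 < γ) (c : ℕ) (hc : 1 ≤ c) (h : ℤ) (y : ℕ → ℕ)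
    (hyt : Tendsto (fun q : ℕ => (y q : ℝ)) atTop atTop)
    (hyl : Tendsto (fun q : ℕ => Real.log (y q) / Real.log q) atTop (𝓝 1))
    (w : ℕ → ℕ → ℝ) (hw0 : ∀ n t, 0 ≤ w n t) (hw1 : ∀ n t, w n t ≤ 1) (B : ℕ)
    (hs : ∀ᶠ n : ℕ in atTop, (n : ℝ) / Real.log n ^ B ≤ ∑ t ∈ Icc 1 (n - 1), w n t) (ε : ℝ) (hε : 0 < ε) :
    ∀ᶠ n : ℕ in atTop, |e1 a γ c h y (w n) n| ≤ n / Real.log n ^ (B + 3) →
      |e2 a (w n) n| ≤ n / Real.log n ^ (B + 3) →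
      |rep2 a γ c h y (w n) n * Real.log n ^ 2 / (∑ t ∈ Icc 1 (n - 1), w n t) - 1 / c| ≤ ε := by
  have hc1 : (1 : ℝ) ≤ c := by exact_mod_cast hc
  have hc0 : (0 : ℝ) < c := by linarith
  -- the first density
  have f1 : Tendsto (fun t : ℕ => rz (⌊a * (t : ℝ)⌋ + 0) * Real.log t) atTop (𝓝 1) := by
    have h1 := pow_lim a 1 ha one_pos
    have h2 := rz_lim (fun t : ℕ => a * (t : ℝ) ^ (1 : ℝ)) 0 1 one_pos h1.1 h1.2
    simp only [Real.rpow_one, div_one] at h2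
    exact h2
  -- the second density
  have hq : Tendsto (fun t : ℕ => ⌊a * (t : ℝ)⌋₊) atTop atTop :=
    tendsto_nat_floor_atTop.comp (tendsto_natCast_atTop_atTop.const_mul_atTop ha)
  have hql : Tendsto (fun t : ℕ => Real.log ((⌊a * (t : ℝ)⌋₊ : ℕ) : ℝ) / Real.log t) atTop (𝓝 1) := by
    have h1 := pow_lim a 1 ha one_pos
    have hz : Tendsto (fun n : ℕ => Real.log 2 / Real.log n) atTop (𝓝 0) := nlog.const_div_atTop _
    have l1 := h1.2.sub hz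
    rw [sub_zero] at l1
    simp only [Real.rpow_one] at l1 h1
    refine tendsto_of_tendsto_of_tendsto_of_le_of_le' l1 h1.2 ?_ ?_
    · filter_upwards [h1.1.eventually_ge_atTop 2, nlog.eventually_ge_atTop 1] with n hn hl
      rw [← sub_div]
      apply div_le_div_of_nonneg_right _ (by linarith)
      rw [← Real.log_div (by linarith) (by norm_num)]
      have hf := Nat.sub_one_lt_floor (a * (n : ℝ))
      exact Real.log_le_log (by linarith) (by linarith)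
    · filter_upwards [h1.1.eventually_ge_atTop 2, nlog.eventually_ge_atTop 1] with n hn hl
      apply div_le_div_of_nonneg_right _ (by linarith)
      have hf := Nat.sub_one_lt_floor (a * (n : ℝ))
      exact Real.log_le_log (by linarith) (Nat.floor_le (by linarith))
  have f2 : Tendsto (fun t : ℕ => rz (⌊γ * (y ⌊a * (t : ℝ)⌋₊ : ℝ) ^ c⌋ + h) * Real.log t) atTop
      (𝓝 (1 / c)) := by
    refine rz_seq (fun t => (y ⌊a * (t : ℝ)⌋₊ : ℝ)) (hyt.comp hq) ?_ c hc γ hγ h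
    have h1 := (hyl.comp hq).mul hql
    rw [mul_one] at h1
    refine h1.congr' ?_
    filter_upwards [(nlog.comp hq).eventually_ge_atTop 1] with t ht
    simp only [Function.comp] at ht ⊢
    have : Real.log ((⌊a * (t : ℝ)⌋₊ : ℕ) : ℝ) ≠ 0 := by linarith
    field_simp
  obtain ⟨δ, hδ⟩ : ∃ δ : ℝ, δ = min 1 (ε / 8) := ⟨_, rfl⟩
  have hδ0 : 0 < δ := by rw [hδ]; positivity
  have hδ1 : δ ≤ 1 := by rw [hδ]; exact min_le_left _ _
  have hδ2 : δ ≤ ε / 8 := by rw [hδ]; exact min_le_right _ _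
  have u1 := unif (fun t => rz (⌊a * (t : ℝ)⌋ + 0)) 1 (B + 3) 1 (by simpa only [pow_one] using f1) δ hδ0
  have u2 := unif (fun t => rz (⌊γ * (y ⌊a * (t : ℝ)⌋₊ : ℝ) ^ c⌋ + h)) 1 (B + 3) (1 / c)
    (by simpa only [pow_one] using f2) δ hδ0
  have hsm : Tendsto (fun N : ℕ => (8 : ℝ) / Real.log N) atTop (𝓝 0) := nlog.const_div_atTop _
  have ev : ∀ᶠ N : ℕ in atTop, (8 : ℝ) / Real.log N < δ := hsm.eventually (gt_mem_nhds hδ0)
  filter_upwards [u1, u2, hs, ev, nlog.eventually_ge_atTop 1, eventually_ge_atTop 2] with n v1 v2 v3 v4 v5 v6 b1 b2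
  have hn0 : (0 : ℝ) < n := by exact_mod_cast (by omega : 0 < n)
  obtain ⟨ℓ, hℓ⟩ : ∃ ℓ : ℝ, ℓ = Real.log n := ⟨_, rfl⟩
  rw [← hℓ] at v1 v2 v3 v4 v5 b1 b2 ⊢
  have hℓ0 : 0 < ℓ := by linarith
  obtain ⟨s, hsd⟩ : ∃ s : ℝ, s = ∑ t ∈ Icc 1 (n - 1), w n t := ⟨_, rfl⟩
  rw [← hsd] at v3 ⊢
  have hs0 : 0 < s := lt_of_lt_of_le (by positivity) v3
  have hV0 : 0 ≤ (n : ℝ) / ℓ ^ (B + 3) := by positivity
  have hVs : (n : ℝ) / ℓ ^ (B + 3) * ℓ ^ 2 ≤ δ / 8 * s := by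
    have h1 : (n : ℝ) / ℓ ^ (B + 3) * ℓ ^ 2 = 1 / ℓ * (n / ℓ ^ B) := by
      rw [show B + 3 = B + 1 + 2 by ring, pow_add _ (B + 1) 2, pow_add _ B 1]
      field_simp
    rw [h1]
    have h2 : 1 / ℓ ≤ δ / 8 := by
      have : 8 * (1 / ℓ) < δ := by rwa [mul_one_div]
      linarith
    exact mul_le_mul h2 v3 (by positivity) (by positivity)
  have hV1 : (n : ℝ) / ℓ ^ (B + 3) * ℓ ≤ (n : ℝ) / ℓ ^ (B + 3) * ℓ ^ 2 := by
    apply mul_le_mul_of_nonneg_left _ hV0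
    nlinarith
  -- A' = sum of the densities
  obtain ⟨A1, hA1⟩ : ∃ A1 : ℝ, A1 = ∑ t ∈ Icc 1 (n - 1), w n t * rz (⌊a * (t : ℝ)⌋ + 0) := ⟨_, rfl⟩
  obtain ⟨A0, hA0⟩ : ∃ A0 : ℝ, A0 = ∑ t ∈ Icc 1 (n - 1), w n t * pz (⌊a * (t : ℝ)⌋ + 0) := ⟨_, rfl⟩
  have hA01 : A0 - A1 = e2 a (w n) n := by
    rw [hA0, hA1, ← Finset.sum_sub_distrib]
    unfold e2
    exact Finset.sum_congr rfl fun t _ => by ring
  have c1 : |A1 * ℓ ^ 1 - 1 * s| ≤ n / ℓ ^ (B + 3) * (ℓ ^ 1 + 1) + δ * s := by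
    rw [hA1, hsd]
    refine sum_pt _ _ _ (fun t _ => hw0 n t) (fun t _ => hw1 n t) (fun _ => rz_nonneg _) (fun _ => rz_le_one _)
      1 1 δ ℓ _ zero_le_one hδ0.le hℓ0.le ?_
    refine le_trans ?_ (few_small n _ hV0)
    have : ((Icc 1 (n - 1)).filter fun t : ℕ => δ < |rz (⌊a * (t : ℝ)⌋ + 0) * ℓ ^ 1 - 1|) ⊆
        (Icc 1 (n - 1)).filter fun s : ℕ => (s : ℝ) < n / ℓ ^ (B + 3) := by
      intro t ht
      rw [mem_filter] at ht ⊢
      refine ⟨ht.1, ?_⟩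
      by_contra hcon
      rw [not_lt] at hcon
      have h1 := v1 t hcon (by rw [mem_Icc] at ht; omega)
      linarith [ht.2]
    exact_mod_cast Finset.card_le_card this
  rw [pow_one, one_mul] at c1
  -- the main sum
  obtain ⟨M, hM⟩ : ∃ M : ℝ, M = ∑ t ∈ (Icc 1 (n - 1)).filter fun t : ℕ => (⌊a * t⌋₊).Prime,
    w n t * rz (⌊γ * (y ⌊a * t⌋₊ : ℝ) ^ c⌋ + h) := ⟨_, rfl⟩
  have hA0' : A0 = ∑ t ∈ (Icc 1 (n - 1)).filter fun t : ℕ => (⌊a * t⌋₊).Prime, w n t := by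
    rw [hA0, Finset.sum_filter]
    refine Finset.sum_congr rfl fun t _ => ?_
    have h1 : (⌊a * (t : ℝ)⌋ + 0).toNat = ⌊a * (t : ℝ)⌋₊ := by
      rw [add_zero]
      exact Int.floor_toNat _
    unfold pz
    rw [h1]
    split_ifs
    · rw [mul_one]
    · rw [mul_zero]
  have c2 : |M * ℓ ^ 1 - 1 / c * A0| ≤ n / ℓ ^ (B + 3) * (ℓ ^ 1 + 1 / c) + δ * A0 := by
    rw [hM, hA0']
    refine sum_pt _ _ _ (fun t _ => hw0 n t) (fun t _ => hw1 n t) (fun _ => rz_nonneg _) (fun _ => rz_le_one _)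
      1 (1 / c) δ ℓ _ (by positivity) hδ0.le hℓ0.le ?_
    refine le_trans ?_ (few_small n _ hV0)
    have : (((Icc 1 (n - 1)).filter fun t : ℕ => (⌊a * t⌋₊).Prime).filter fun t : ℕ =>
        δ < |rz (⌊γ * (y ⌊a * (t : ℝ)⌋₊ : ℝ) ^ c⌋ + h) * ℓ ^ 1 - 1 / c|) ⊆
        (Icc 1 (n - 1)).filter fun s : ℕ => (s : ℝ) < n / ℓ ^ (B + 3) := by
      intro t ht
      rw [mem_filter, mem_filter] at ht
      rw [mem_filter]
      refine ⟨ht.1.1, ?_⟩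
      by_contra hcon
      rw [not_lt] at hcon
      have h1 := v2 t hcon (by have := ht.1.1; rw [mem_Icc] at this; omega)
      linarith [ht.2]
    exact_mod_cast Finset.card_le_card this
  rw [pow_one] at c2
  have hR : rep2 a γ c h y (w n) n - M = e1 a γ c h y (w n) n := by
    rw [hM]
    unfold rep2 e1
    rw [← Finset.sum_sub_distrib]
    exact Finset.sum_congr rfl fun t _ => by ring
  obtain ⟨R, hRd⟩ : ∃ R : ℝ, R = rep2 a γ c h y (w n) n := ⟨_, rfl⟩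
  rw [← hRd] at hR ⊢
  rw [← hR] at b1
  rw [← hA01] at b2
  -- bounds
  have hc' : 1 / (c : ℝ) ≤ 1 := by rw [div_le_one hc0]; exact hc1
  have hc'' : 0 < 1 / (c : ℝ) := by positivity
  have d1 : |A0 * ℓ - s| ≤ 2 * δ * s := by
    have e1 : A0 * ℓ - s = (A0 - A1) * ℓ + (A1 * ℓ - s) := by ring
    rw [e1]
    refine (abs_add_le _ _).trans ?_
    rw [abs_mul, abs_of_pos hℓ0]
    have h1 : |A0 - A1| * ℓ ≤ n / ℓ ^ (B + 3) * ℓ := mul_le_mul_of_nonneg_right b2 hℓ0.le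
    have h2 : (n : ℝ) / ℓ ^ (B + 3) * (ℓ + 1) ≤ 2 * (n / ℓ ^ (B + 3) * ℓ) := by nlinarith
    nlinarith
  have d2 : A0 * ℓ ≤ 3 * s := by
    rw [abs_le] at d1
    nlinarith [d1.2]
  have hA00 : 0 ≤ A0 := by
    rw [hA0']
    exact Finset.sum_nonneg fun t _ => hw0 n t
  have d3 : |M * ℓ ^ 2 - 1 / c * (A0 * ℓ)| ≤ 4 * δ * s := by
    have e1 : M * ℓ ^ 2 - 1 / c * (A0 * ℓ) = (M * ℓ - 1 / c * A0) * ℓ := by ring
    rw [e1, abs_mul, abs_of_pos hℓ0]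
    have h1 : |M * ℓ - 1 / c * A0| * ℓ ≤ (n / ℓ ^ (B + 3) * (ℓ + 1 / c) + δ * A0) * ℓ :=
      mul_le_mul_of_nonneg_right c2 hℓ0.le
    have h2 : (n : ℝ) / ℓ ^ (B + 3) * (ℓ + 1 / c) * ℓ ≤ 2 * (n / ℓ ^ (B + 3) * ℓ ^ 2) := by
      have : (ℓ + 1 / c) * ℓ ≤ 2 * ℓ ^ 2 := by nlinarith
      calc (n : ℝ) / ℓ ^ (B + 3) * (ℓ + 1 / c) * ℓ = n / ℓ ^ (B + 3) * ((ℓ + 1 / c) * ℓ) := by ring
        _ ≤ n / ℓ ^ (B + 3) * (2 * ℓ ^ 2) := mul_le_mul_of_nonneg_left this hV0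
        _ = _ := by ring
    have h3 : δ * A0 * ℓ ≤ δ * (3 * s) := by
      rw [mul_assoc]
      exact mul_le_mul_of_nonneg_left d2 hδ0.le
    have h4 : 0 ≤ δ * s := by positivity
    nlinarith
  have d4 : |R * ℓ ^ 2 - M * ℓ ^ 2| ≤ δ * s := by
    rw [← sub_mul, abs_mul, abs_of_pos (show 0 < ℓ ^ 2 by positivity)]
    have h1 := mul_le_mul_of_nonneg_right b1 (show 0 ≤ ℓ ^ 2 by positivity)
    have h4 : 0 ≤ δ * s := by positivity
    nlinarith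
  have d5 : |R * ℓ ^ 2 - 1 / c * s| ≤ ε * s := by
    have e1 : R * ℓ ^ 2 - 1 / c * s = (R * ℓ ^ 2 - M * ℓ ^ 2) + (M * ℓ ^ 2 - 1 / c * (A0 * ℓ)) +
        1 / c * (A0 * ℓ - s) := by ring
    rw [e1]
    refine (abs_add_le _ _).trans ?_
    refine (add_le_add (abs_add_le _ _) le_rfl).trans ?_
    rw [abs_mul, abs_of_pos hc'']
    have h1 : 1 / (c : ℝ) * |A0 * ℓ - s| ≤ 1 * (2 * δ * s) :=
      mul_le_mul hc' d1 (abs_nonneg _) zero_le_one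
    have h2 : 8 * δ * s ≤ ε * s := mul_le_mul_of_nonneg_right (by linarith) hs0.le
    have h4 : 0 ≤ δ * s := by positivity
    linarith
  have e2 : R * ℓ ^ 2 / s - 1 / c = (R * ℓ ^ 2 - 1 / c * s) / s := by
    field_simp
  rw [e2, abs_div, abs_of_pos hs0, div_le_iff₀ hs0]
  exact d5

/-- almost every pair -/
theorem slope_ae (c : ℕ) (hc : 1 ≤ c) (y : ℕ → ℕ) (hyP : ∀ q, 1 ≤ q → 1 ≤ y q ∧ y q ≤ P q)
    (hyi : ∀ q q' : ℕ, q.Prime → q'.Prime → y q = y q' → q = q')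
    (w : ℕ → ℕ → ℝ) (hw : ∀ n t, |w n t| ≤ 1) (R : Set ℕ) :
    ∀ᵐ α ∂((volume : Measure (Fin 2 → ℝ)).restrict {α | ∀ i, 0 < α i}),
      ∀ (h : ℤ) (K : ℕ), ∀ᶠ i : ℕ in atTop,
        (((dy R i).filter fun n : ℕ => (n : ℝ) / Real.log n ^ K < |e1 (α 0) (α 1) c h y (w n) n|).card : ℝ) *
          i ^ K ≤ (dy R i).card ∧
        (((dy R i).filter fun n : ℕ => (n : ℝ) / Real.log n ^ K < |e2 (α 0) (w n) n|).card : ℝ) *
          i ^ K ≤ (dy R i).card := by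
  refine ae_cubes 2 (fun α => ∀ (h : ℤ) (K : ℕ), ∀ᶠ i : ℕ in atTop,
        (((dy R i).filter fun n : ℕ => (n : ℝ) / Real.log n ^ K < |e1 (α 0) (α 1) c h y (w n) n|).card : ℝ) *
          i ^ K ≤ (dy R i).card ∧
        (((dy R i).filter fun n : ℕ => (n : ℝ) / Real.log n ^ K < |e2 (α 0) (w n) n|).card : ℝ) *
          i ^ K ≤ (dy R i).card) fun b => ?_
  rw [ae_all_iff]
  intro h
  have h1 := exc_real (cube 2)
    (fun n ω => e1 (Real.exp ((b 0 : ℝ) + ω 0)) (Real.exp ((b 1 : ℝ) + ω 1)) c h y (w n) n)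
    (fun n => e1_meas _ _ c h y _ n)
    (fun K => e1_sq (b 0 : ℝ) (b 1 : ℝ) c hc h y hyP hyi w hw K) R
  have h2 := exc_real (cube 2) (fun n ω => e2 (Real.exp ((b 0 : ℝ) + ω 0)) (w n) n)
    (fun n => e2_meas _ _ n) (fun K => e2_sq (b 0 : ℝ) w hw K) R
  have h3 : ∀ᵐ ω ∂(cube 2), ∀ K : ℕ, ∀ᶠ i : ℕ in atTop,
        (((dy R i).filter fun n : ℕ => (n : ℝ) / Real.log n ^ K <
          |e1 (Real.exp ((b 0 : ℝ) + ω 0)) (Real.exp ((b 1 : ℝ) + ω 1)) c h y (w n) n|).card : ℝ) *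
          i ^ K ≤ (dy R i).card ∧
        (((dy R i).filter fun n : ℕ => (n : ℝ) / Real.log n ^ K <
          |e2 (Real.exp ((b 0 : ℝ) + ω 0)) (w n) n|).card : ℝ) * i ^ K ≤ (dy R i).card := by
    filter_upwards [h1, h2] with ω g1 g2 K
    exact (g1 K).and (g2 K)
  exact h3

/-- from pairs to iterated almost everywhere statements -/
theorem ae_pair (Q : ℝ → ℝ → Prop)
    (h : ∀ᵐ α ∂((volume : Measure (Fin 2 → ℝ)).restrict {α | ∀ i, 0 < α i}), Q (α 0) (α 1)) :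
    ∀ᵐ m : ℝ, 0 < m → ∀ᵐ γ : ℝ, 0 < γ → Q (1 / m) γ := by
  rw [ae_restrict_iff' (pos_meas 2)] at h
  have hm := (volume_preserving_finTwoArrow ℝ).symm
  have h2 := hm.quasiMeasurePreserving.ae h
  rw [Measure.volume_eq_prod] at h2
  have h3 := Measure.ae_ae_of_ae_prod h2
  refine ae_inv (fun a => ∀ᵐ γ : ℝ, 0 < γ → Q a γ) ?_
  filter_upwards [h3] with a ha ha0
  filter_upwards [ha] with γ hγ hγ0
  have h4 := hγ (fun i => by
    fin_cases i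
    · exact ha0
    · exact hγ0)
  exact h4

end Pool.Agent.U996.GB
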