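import Pool.Agent.U996.GB.SlopeAe
import Pool.Agent.U996.UW.Dyn

/-!
# Every slope and almost every companion factor
-/

set_option autoImplicit false

namespace Pool.Agent.U996.GB

open Finset MeasureTheory Filter Topology
open scoped ENNReal
open Pool.Agent.Y957.AD (PolyVar)
open Pool.Agent.Y957.VK
open Pool.Agent.U996.UW

theorem e1_eq_fix (a b1 : ℝ) (c : ℕ) (h : ℤ) (y : ℕ → ℕ) (w : ℕ → ℝ) (n : ℕ) (u : ℝ) :
    ((e1 a (Real.exp (b1 + u)) c h y w n : ℝ) : ℂ) =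
      ∑ t ∈ (Icc 1 (n - 1)).filter fun t : ℕ => (⌊a * t⌋₊).Prime,
        (w t : ℂ) * sh (fun n => pI n - pR n) h (Real.exp (b1 + u) * ((y ⌊a * t⌋₊ : ℕ) : ℝ) ^ (c : ℝ)) := by
  unfold e1
  push_cast
  refine Finset.sum_congr rfl fun t _ => ?_
  rw [sh_pz h _ (by positivity), Real.rpow_natCast]
  push_cast
  rfl

theorem e1_meas_fix (a b1 : ℝ) (c : ℕ) (h : ℤ) (y : ℕ → ℕ) (w : ℕ → ℝ) (n : ℕ) :
    Measurable fun u : ℝ => e1 a (Real.exp (b1 + u)) c h y w n := by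
  have h2 : Measurable fun u : ℝ => ((e1 a (Real.exp (b1 + u)) c h y w n : ℝ) : ℂ) := by
    simp only [e1_eq_fix]
    refine Finset.measurable_fun_sum _ fun t _ => ?_
    exact Measurable.const_mul ((sh_meas _ _).comp
      ((Real.measurable_exp.comp (measurable_id.const_add _)).mul_const _)) _
  exact (Complex.measurable_re.comp h2)

theorem e1_sq_fix (a : ℝ) (ha : 0 < a) (b1 : ℝ) (c : ℕ) (hc : 1 ≤ c) (h : ℤ) (y : ℕ → ℕ)
    (hyP : ∀ q, 1 ≤ q → 1 ≤ y q ∧ y q ≤ P q)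
    (hyi : ∀ q q' : ℕ, q.Prime → q'.Prime → y q = y q' → q = q')
    (w : ℕ → ℕ → ℝ) (hw : ∀ n t, |w n t| ≤ 1) (K : ℕ) :
    ∃ C : ℝ, 0 ≤ C ∧ ∀ᶠ n : ℕ in atTop,
      ∫⁻ u in Set.Icc (0 : ℝ) 1, ‖e1 a (Real.exp (b1 + u)) c h y (w n) n‖ₑ ^ 2 ≤
        ENNReal.ofReal (C * (n ^ 2 / Real.log n ^ K)) := by
  obtain ⟨C, hC, hp⟩ := full_map (sh (fun n => pI n - pR n) h) (sh_le fp_le _) (sh_meas _ _)
    (sh_var fp_le _) (sh_neg fp_le neg_fp _) b1 c (by exact_mod_cast hc) (K + 2)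
  obtain ⟨G, hG⟩ : ∃ G : ℕ, G = ⌈a⌉₊ + 1 := ⟨_, rfl⟩
  obtain ⟨B, hB⟩ : ∃ B : ℕ, B = ⌈1 / a⌉₊ + 1 := ⟨_, rfl⟩
  have hGr : a ≤ G := by
    rw [hG]
    push_cast
    have := Nat.le_ceil a
    linarith
  have hG1 : 1 ≤ G := by omega
  have hBr : 1 / a + 1 ≤ B := by
    rw [hB]
    push_cast
    have := Nat.le_ceil (1 / a)
    linarith
  have hPG : ∀ᶠ n : ℕ in atTop, n ≤ P (G * n) ∧ (P (G * n) : ℝ) ≤ 8 * G * (n * Real.log n) := by
    have hGn : Tendsto (fun n : ℕ => G * n) atTop atTop := tendsto_id.const_mul_atTop' (by omega)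
    filter_upwards [hGn.eventually P_le, eventually_ge_atTop G, eventually_ge_atTop 2] with n h1 h2 h3
    have h4 := P_ge (G * n) (by nlinarith)
    refine ⟨by nlinarith, h1.trans ?_⟩
    have hn0 : (0 : ℝ) < n := by exact_mod_cast (by omega : 0 < n)
    have hG0 : (0 : ℝ) < G := by exact_mod_cast (by omega : 0 < G)
    have h5 : Real.log ((G * n : ℕ) : ℝ) ≤ 2 * Real.log n := by
      push_cast
      rw [Real.log_mul hG0.ne' hn0.ne']
      have : Real.log G ≤ Real.log n := Real.log_le_log hG0 (by exact_mod_cast h2)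
      linarith
    calc 4 * (((G * n : ℕ) : ℝ) * Real.log ((G * n : ℕ) : ℝ)) ≤ 4 * (((G * n : ℕ) : ℝ) * (2 * Real.log n)) := by
          gcongr
      _ = _ := by
          push_cast
          ring
  refine ⟨C * B ^ 2 * (8 * G) ^ 2, by positivity, ?_⟩
  filter_upwards [hPG, eventually_ge_atTop 2, nlog.eventually_ge_atTop 1] with n hX hn hl
  have hX2 : 2 ≤ P (G * n) := hn.trans hX.1
  have h1 := hp ℕ ((Icc 1 (n - 1)).filter fun t : ℕ => (⌊a * t⌋₊).Prime)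
    (fun t => (w n t : ℂ)) (fun t => y ⌊a * t⌋₊) (P (G * n)) B hX2
    (fun t _ => by
      show ‖(w n t : ℂ)‖ ≤ 1
      rw [Complex.norm_real]
      exact hw n t)
    (fun t ht => by
      rw [mem_filter, mem_Icc] at ht
      obtain ⟨⟨t1, t2⟩, t3⟩ := ht
      have h2 := hyP _ t3.one_lt.le
      refine ⟨h2.1, h2.2.trans (P_mono ?_)⟩
      have h3 : (⌊a * t⌋₊ : ℝ) ≤ ((G * n : ℕ) : ℝ) := by
        refine (Nat.floor_le (by positivity)).trans ?_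
        push_cast
        have h4 : (t : ℝ) ≤ n := by exact_mod_cast (by omega : t ≤ n)
        exact mul_le_mul hGr h4 (Nat.cast_nonneg _) (Nat.cast_nonneg _)
      exact_mod_cast h3)
    (fun m => by
      rcases (((Icc 1 (n - 1)).filter fun t : ℕ => (⌊a * t⌋₊).Prime).filter
        fun t : ℕ => y ⌊a * t⌋₊ = m).eq_empty_or_nonempty with h2 | ⟨t0, ht0⟩
      · rw [h2]
        simp
      · rw [mem_filter, mem_filter] at ht0
        refine le_trans (Finset.card_le_card ?_)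
          (fibre_nat a ha (Icc 1 (n - 1)) ⌊a * t0⌋₊ B hBr)
        intro t ht
        rw [mem_filter, mem_filter] at ht
        rw [mem_filter]
        exact ⟨ht.1.1, hyi _ _ ht.1.2 ht0.1.2 (ht.2.trans ht0.2.symm)⟩)
  refine le_trans (le_of_eq ?_) (h1.trans (ENNReal.ofReal_le_ofReal ?_))
  · refine lintegral_congr fun u => ?_
    rw [enorm_rc, e1_eq_fix]
  · have hn0 : (0 : ℝ) < n := by exact_mod_cast (by omega : 0 < n)
    have hl0 : 0 < Real.log n := by linarith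
    have hXn : (n : ℝ) ≤ P (G * n) := by exact_mod_cast hX.1
    have hlog : Real.log n ≤ Real.log (P (G * n)) := Real.log_le_log hn0 hXn
    calc C * B ^ 2 * ((P (G * n) : ℝ) ^ 2 / Real.log (P (G * n)) ^ (K + 2)) ≤
          C * B ^ 2 * ((8 * G * (n * Real.log n)) ^ 2 / Real.log n ^ (K + 2)) := by
          apply mul_le_mul_of_nonneg_left _ (by positivity)
          apply div_le_div₀ (by positivity) (pow_le_pow_left₀ (Nat.cast_nonneg _) hX.2 2) (by positivity)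
          exact pow_le_pow_left₀ hl0.le hlog _
      _ = _ := by
          rw [pow_add]
          field_simp

/-- every slope, almost every companion factor -/
theorem fix_ae (a : ℝ) (ha : 0 < a) (c : ℕ) (hc : 1 ≤ c) (y : ℕ → ℕ)
    (hyP : ∀ q, 1 ≤ q → 1 ≤ y q ∧ y q ≤ P q)
    (hyi : ∀ q q' : ℕ, q.Prime → q'.Prime → y q = y q' → q = q')
    (w : ℕ → ℕ → ℝ) (hw : ∀ n t, |w n t| ≤ 1) (R : Set ℕ) :
    ∀ᵐ γ : ℝ, 0 < γ → ∀ (h : ℤ) (K : ℕ), ∀ᶠ i : ℕ in atTop,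
        (((dy R i).filter fun n : ℕ => (n : ℝ) / Real.log n ^ K < |e1 a γ c h y (w n) n|).card : ℝ) *
          i ^ K ≤ (dy R i).card := by
  refine ae_cubes1 (fun γ => ∀ (h : ℤ) (K : ℕ), ∀ᶠ i : ℕ in atTop,
        (((dy R i).filter fun n : ℕ => (n : ℝ) / Real.log n ^ K < |e1 a γ c h y (w n) n|).card : ℝ) *
          i ^ K ≤ (dy R i).card) fun b => ?_
  rw [ae_all_iff]
  intro h
  exact exc_real (volume.restrict (Set.Icc (0 : ℝ) 1))
    (fun n u => e1 a (Real.exp ((b : ℝ) + u)) c h y (w n) n) (fun n => e1_meas_fix a _ c h y _ n)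
    (fun K => e1_sq_fix a ha (b : ℝ) c hc h y hyP hyi w hw K) R

/-- almost every slope: the second error -/
theorem slope_one (w : ℕ → ℕ → ℝ) (hw : ∀ n t, |w n t| ≤ 1) (R : Set ℕ) :
    ∀ᵐ a : ℝ, 0 < a → ∀ K : ℕ, ∀ᶠ i : ℕ in atTop,
        (((dy R i).filter fun n : ℕ => (n : ℝ) / Real.log n ^ K < |e2 a (w n) n|).card : ℝ) *
          i ^ K ≤ (dy R i).card := by
  refine ae_cubes1 (fun a => ∀ K : ℕ, ∀ᶠ i : ℕ in atTop,
        (((dy R i).filter fun n : ℕ => (n : ℝ) / Real.log n ^ K < |e2 a (w n) n|).card : ℝ) *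
          i ^ K ≤ (dy R i).card) fun b => ?_
  have e2u : ∀ (w : ℕ → ℝ) (n : ℕ) (u : ℝ), ((e2 (Real.exp ((b : ℝ) + u)) w n : ℝ) : ℂ) =
      ∑ t ∈ Icc 1 (n - 1), (w t : ℂ) * sh (fun n => pI n - pR n) 0 (Real.exp ((b : ℝ) + u) *
          (t : ℝ) ^ (1 : ℝ)) := fun w n u => e2_eq (b : ℝ) w n (fun _ => u)
  refine exc_real (volume.restrict (Set.Icc (0 : ℝ) 1)) (fun n u => e2 (Real.exp ((b : ℝ) + u)) (w n) n)
    (fun n => ?_) (fun K => ?_) R
  · have h2 : Measurable fun u : ℝ => ((e2 (Real.exp ((b : ℝ) + u)) (w n) n : ℝ) : ℂ) := by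
      simp only [e2u]
      refine Finset.measurable_fun_sum _ fun t _ => ?_
      exact Measurable.const_mul ((sh_meas _ _).comp
        ((Real.measurable_exp.comp (measurable_id.const_add _)).mul_const _)) _
    exact (Complex.measurable_re.comp h2)
  · obtain ⟨C, hC, hp⟩ := full_map (sh (fun n => pI n - pR n) 0) (sh_le fp_le _) (sh_meas _ _)
      (sh_var fp_le _) (sh_neg fp_le neg_fp _) (b : ℝ) 1 one_pos K
    refine ⟨C, hC, ?_⟩
    filter_upwards [eventually_ge_atTop 2] with n hn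
    have h1 := hp ℕ (Icc 1 (n - 1)) (fun t => (w n t : ℂ)) (fun t => t) n 1 hn (fun t _ => by
        show ‖(w n t : ℂ)‖ ≤ 1
        rw [Complex.norm_real]
        exact hw n t) (fun t ht => by
        rw [mem_Icc] at ht
        exact ⟨ht.1, by show t ≤ n; omega⟩) (fun m => by
        rw [Finset.card_le_one]
        intro s hs t ht
        rw [mem_filter] at hs ht
        exact hs.2.trans ht.2.symm)
    refine le_trans (le_of_eq ?_) (h1.trans (le_of_eq ?_))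
    · refine lintegral_congr fun u => ?_
      rw [enorm_rc, e2u]
    · congr 1
      push_cast
      ring

/-- the number of the solutions of the first condition -/
noncomputable def rep1 (a : ℝ) (w : ℕ → ℝ) (n : ℕ) : ℝ :=
  ∑ t ∈ (Icc 1 (n - 1)).filter fun t : ℕ => (⌊a * t⌋₊).Prime, w t

theorem rep1_nonneg (a : ℝ) (w : ℕ → ℝ) (hw : ∀ t, 0 ≤ w t) (n : ℕ) : 0 ≤ rep1 a w n :=
  Finset.sum_nonneg fun t _ => hw t

theorem rep1_eq (a : ℝ) (w : ℕ → ℝ) (n : ℕ) :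
    rep1 a w n = ∑ t ∈ Icc 1 (n - 1), w t * pz (⌊a * (t : ℝ)⌋ + 0) := by
  unfold rep1
  rw [Finset.sum_filter]
  refine Finset.sum_congr rfl fun t _ => ?_
  have h1 : (⌊a * (t : ℝ)⌋ + 0).toNat = ⌊a * (t : ℝ)⌋₊ := by
    rw [add_zero]
    exact Int.floor_toNat _
  unfold pz
  rw [h1]
  split_ifs
  · rw [mul_one]
  · rw [mul_zero]

/-- the companion density -/
theorem comp_lim (a γ : ℝ) (ha : 0 < a) (hγ : 0 < γ) (c : ℕ) (hc : 1 ≤ c) (h : ℤ) (y : ℕ → ℕ)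
    (hyt : Tendsto (fun q : ℕ => (y q : ℝ)) atTop atTop)
    (hyl : Tendsto (fun q : ℕ => Real.log (y q) / Real.log q) atTop (𝓝 1)) :
    Tendsto (fun t : ℕ => rz (⌊γ * (y ⌊a * (t : ℝ)⌋₊ : ℝ) ^ c⌋ + h) * Real.log t) atTop (𝓝 (1 / c)) := by
  have hq : Tendsto (fun t : ℕ => ⌊a * (t : ℝ)⌋₊) atTop atTop :=
    tendsto_nat_floor_atTop.comp (tendsto_natCast_atTop_atTop.const_mul_atTop ha)
  have hql : Tendsto (fun t : ℕ => Real.log ((⌊a * (t : ℝ)⌋₊ : ℕ) : ℝ) / Real.log t) atTop (𝓝 1) := by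
    have h1 := pow_lim a 1 ha one_pos
    have hz : Tendsto (fun n : ℕ => Real.log 2 / Real.log n) atTop (𝓝 0) := nlog.const_div_atTop _
    have l1 := h1.2.sub hz
    rw [sub_zero] at l1
    simp only [Real.rpow_one] at l1 h1
    refine tendsto_of_tendsto_of_tendsto_of_le_of_le' l1 h1.2 ?_ ?_
    · filter_upwards [h1.1.eventually_ge_atTop 2, nlog.eventually_ge_atTop 1] with n hn hl
      rw [← sub_div]
      apply div_le_div_of_nonneg_right _ (by linarith)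
      rw [← Real.log_div (by linarith) (by norm_num)]
      have hf := Nat.sub_one_lt_floor (a * (n : ℝ))
      exact Real.log_le_log (by linarith) (by linarith)
    · filter_upwards [h1.1.eventually_ge_atTop 2, nlog.eventually_ge_atTop 1] with n hn hl
      apply div_le_div_of_nonneg_right _ (by linarith)
      have hf := Nat.sub_one_lt_floor (a * (n : ℝ))
      exact Real.log_le_log (by linarith) (Nat.floor_le (by linarith))
  refine rz_seq (fun t => (y ⌊a * (t : ℝ)⌋₊ : ℝ)) (hyt.comp hq) ?_ c hc γ hγ h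
  have h1 := (hyl.comp hq).mul hql
  rw [mul_one] at h1
  refine h1.congr' ?_
  filter_upwards [(nlog.comp hq).eventually_ge_atTop 1] with t ht
  simp only [Function.comp] at ht ⊢
  have : Real.log ((⌊a * (t : ℝ)⌋₊ : ℕ) : ℝ) ≠ 0 := by linarith
  field_simp

/-- **The companion condition for one `n`**, no condition on the slope or on the weights. -/
theorem fix_pt (a γ : ℝ) (ha : 0 < a) (hγ : 0 < γ) (c : ℕ) (hc : 1 ≤ c) (h : ℤ) (y : ℕ → ℕ)
    (hyt : Tendsto (fun q : ℕ => (y q : ℝ)) atTop atTop)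
    (hyl : Tendsto (fun q : ℕ => Real.log (y q) / Real.log q) atTop (𝓝 1))
    (w : ℕ → ℕ → ℝ) (hw0 : ∀ n t, 0 ≤ w n t) (hw1 : ∀ n t, w n t ≤ 1) (K : ℕ) (ε : ℝ) (hε : 0 < ε) :
    ∀ᶠ n : ℕ in atTop, |e1 a γ c h y (w n) n| ≤ n / Real.log n ^ (K + 2) →
      |rep2 a γ c h y (w n) n * Real.log n - 1 / c * rep1 a (w n) n| ≤
        ε * rep1 a (w n) n + n / Real.log n ^ K := by
  have hc1 : (1 : ℝ) ≤ c := by exact_mod_cast hc
  have hc0 : (0 : ℝ) < c := by linarith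
  have f2 := comp_lim a γ ha hγ c hc h y hyt hyl
  have u2 := unif (fun t => rz (⌊γ * (y ⌊a * (t : ℝ)⌋₊ : ℝ) ^ c⌋ + h)) 1 (K + 2) (1 / c)
    (by simpa only [pow_one] using f2) ε hε
  filter_upwards [u2, nlog.eventually_ge_atTop 3, eventually_ge_atTop 2] with n v2 v5 v6 b1
  obtain ⟨ℓ, hℓ⟩ : ∃ ℓ : ℝ, ℓ = Real.log n := ⟨_, rfl⟩
  rw [← hℓ] at v2 v5 b1 ⊢
  have hℓ0 : 0 < ℓ := by linarith
  have hn0 : (0 : ℝ) < n := by exact_mod_cast (by omega : 0 < n)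
  have hV0 : 0 ≤ (n : ℝ) / ℓ ^ (K + 2) := by positivity
  obtain ⟨M, hM⟩ : ∃ M : ℝ, M = ∑ t ∈ (Icc 1 (n - 1)).filter fun t : ℕ => (⌊a * t⌋₊).Prime,
    w n t * rz (⌊γ * (y ⌊a * t⌋₊ : ℝ) ^ c⌋ + h) := ⟨_, rfl⟩
  have c2 : |M * ℓ ^ 1 - 1 / c * rep1 a (w n) n| ≤ n / ℓ ^ (K + 2) * (ℓ ^ 1 + 1 / c) +
      ε * rep1 a (w n) n := by
    rw [hM]
    unfold rep1
    refine sum_pt _ _ _ (fun t _ => hw0 n t) (fun t _ => hw1 n t) (fun _ => rz_nonneg _) (fun _ => rz_le_one _)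
      1 (1 / c) ε ℓ _ (by positivity) hε.le hℓ0.le ?_
    refine le_trans ?_ (few_small n _ hV0)
    have : (((Icc 1 (n - 1)).filter fun t : ℕ => (⌊a * t⌋₊).Prime).filter fun t : ℕ =>
        ε < |rz (⌊γ * (y ⌊a * (t : ℝ)⌋₊ : ℝ) ^ c⌋ + h) * ℓ ^ 1 - 1 / c|) ⊆
        (Icc 1 (n - 1)).filter fun s : ℕ => (s : ℝ) < n / ℓ ^ (K + 2) := by
      intro t ht
      rw [mem_filter, mem_filter] at ht
      rw [mem_filter]
      refine ⟨ht.1.1, ?_⟩
      by_contra hcon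
      rw [not_lt] at hcon
      have h1 := v2 t hcon (by have := ht.1.1; rw [mem_Icc] at this; omega)
      linarith [ht.2]
    exact_mod_cast Finset.card_le_card this
  rw [pow_one] at c2
  have hR : rep2 a γ c h y (w n) n - M = e1 a γ c h y (w n) n := by
    rw [hM]
    unfold rep2 e1
    rw [← Finset.sum_sub_distrib]
    exact Finset.sum_congr rfl fun t _ => by ring
  obtain ⟨R, hRd⟩ : ∃ R : ℝ, R = rep2 a γ c h y (w n) n := ⟨_, rfl⟩
  rw [← hRd] at hR ⊢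
  rw [← hR] at b1
  have hc' : 1 / (c : ℝ) ≤ 1 := by rw [div_le_one hc0]; exact hc1
  have e1 : R * ℓ - 1 / c * rep1 a (w n) n = (R - M) * ℓ + (M * ℓ - 1 / c * rep1 a (w n) n) := by ring
  rw [e1]
  refine (abs_add_le _ _).trans ?_
  rw [abs_mul, abs_of_pos hℓ0]
  have h1 : |R - M| * ℓ ≤ n / ℓ ^ (K + 2) * ℓ := mul_le_mul_of_nonneg_right b1 hℓ0.le
  have h2 : (n : ℝ) / ℓ ^ (K + 2) * (ℓ + 1 / c) ≤ n / ℓ ^ (K + 2) * (2 * ℓ) := by
    apply mul_le_mul_of_nonneg_left _ hV0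
    linarith
  have h3 : (n : ℝ) / ℓ ^ (K + 2) * (3 * ℓ) ≤ n / ℓ ^ K := by
    calc (n : ℝ) / ℓ ^ (K + 2) * (3 * ℓ) ≤ n / ℓ ^ (K + 2) * (ℓ * ℓ) :=
          mul_le_mul_of_nonneg_left (mul_le_mul_of_nonneg_right v5 hℓ0.le) hV0
      _ = _ := by
          rw [pow_add]
          field_simp
  linarith

/-- **The slope condition for one `n`.** -/
theorem slope1_pt (a : ℝ) (ha : 0 < a) (w : ℕ → ℕ → ℝ) (hw0 : ∀ n t, 0 ≤ w n t) (hw1 : ∀ n t, w n t ≤ 1)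
    (K : ℕ) (ε : ℝ) (hε : 0 < ε) :
    ∀ᶠ n : ℕ in atTop, |e2 a (w n) n| ≤ n / Real.log n ^ (K + 2) →
      |rep1 a (w n) n * Real.log n - ∑ t ∈ Icc 1 (n - 1), w n t| ≤
        ε * (∑ t ∈ Icc 1 (n - 1), w n t) + n / Real.log n ^ K := by
  have f1 : Tendsto (fun t : ℕ => rz (⌊a * (t : ℝ)⌋ + 0) * Real.log t) atTop (𝓝 1) := by
    have h1 := pow_lim a 1 ha one_pos
    have h2 := rz_lim (fun t : ℕ => a * (t : ℝ) ^ (1 : ℝ)) 0 1 one_pos h1.1 h1.2
    simp only [Real.rpow_one, div_one] at h2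
    exact h2
  have u1 := unif (fun t => rz (⌊a * (t : ℝ)⌋ + 0)) 1 (K + 2) 1 (by simpa only [pow_one] using f1) ε hε
  filter_upwards [u1, nlog.eventually_ge_atTop 3, eventually_ge_atTop 2] with n v1 v5 v6 b1
  obtain ⟨ℓ, hℓ⟩ : ∃ ℓ : ℝ, ℓ = Real.log n := ⟨_, rfl⟩
  rw [← hℓ] at v1 v5 b1 ⊢
  have hℓ0 : 0 < ℓ := by linarith
  have hn0 : (0 : ℝ) < n := by exact_mod_cast (by omega : 0 < n)
  have hV0 : 0 ≤ (n : ℝ) / ℓ ^ (K + 2) := by positivity
  obtain ⟨s, hsd⟩ : ∃ s : ℝ, s = ∑ t ∈ Icc 1 (n - 1), w n t := ⟨_, rfl⟩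
  rw [← hsd]
  obtain ⟨A1, hA1⟩ : ∃ A1 : ℝ, A1 = ∑ t ∈ Icc 1 (n - 1), w n t * rz (⌊a * (t : ℝ)⌋ + 0) := ⟨_, rfl⟩
  have hA01 : rep1 a (w n) n - A1 = e2 a (w n) n := by
    rw [rep1_eq, hA1, ← Finset.sum_sub_distrib]
    unfold e2
    exact Finset.sum_congr rfl fun t _ => by ring
  have c1 : |A1 * ℓ ^ 1 - 1 * s| ≤ n / ℓ ^ (K + 2) * (ℓ ^ 1 + 1) + ε * s := by
    rw [hA1, hsd]
    refine sum_pt _ _ _ (fun t _ => hw0 n t) (fun t _ => hw1 n t) (fun _ => rz_nonneg _) (fun _ => rz_le_one _)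
      1 1 ε ℓ _ zero_le_one hε.le hℓ0.le ?_
    refine le_trans ?_ (few_small n _ hV0)
    have : ((Icc 1 (n - 1)).filter fun t : ℕ => ε < |rz (⌊a * (t : ℝ)⌋ + 0) * ℓ ^ 1 - 1|) ⊆
        (Icc 1 (n - 1)).filter fun s : ℕ => (s : ℝ) < n / ℓ ^ (K + 2) := by
      intro t ht
      rw [mem_filter] at ht ⊢
      refine ⟨ht.1, ?_⟩
      by_contra hcon
      rw [not_lt] at hcon
      have h1 := v1 t hcon (by rw [mem_Icc] at ht; omega)
      linarith [ht.2]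
    exact_mod_cast Finset.card_le_card this
  rw [pow_one, one_mul] at c1
  rw [← hA01] at b1
  have e1 : rep1 a (w n) n * ℓ - s = (rep1 a (w n) n - A1) * ℓ + (A1 * ℓ - s) := by ring
  rw [e1]
  refine (abs_add_le _ _).trans ?_
  rw [abs_mul, abs_of_pos hℓ0]
  have h1 : |rep1 a (w n) n - A1| * ℓ ≤ n / ℓ ^ (K + 2) * ℓ := mul_le_mul_of_nonneg_right b1 hℓ0.le
  have h2 : (n : ℝ) / ℓ ^ (K + 2) * (ℓ + 1) ≤ n / ℓ ^ (K + 2) * (2 * ℓ) := by
    apply mul_le_mul_of_nonneg_left _ hV0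
    linarith
  have h3 : (n : ℝ) / ℓ ^ (K + 2) * (3 * ℓ) ≤ n / ℓ ^ K := by
    calc (n : ℝ) / ℓ ^ (K + 2) * (3 * ℓ) ≤ n / ℓ ^ (K + 2) * (ℓ * ℓ) :=
          mul_le_mul_of_nonneg_left (mul_le_mul_of_nonneg_right v5 hℓ0.le) hV0
      _ = _ := by
          rw [pow_add]
          field_simp
  linarith

end Pool.Agent.U996.GB
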