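import Pool.Agent.U996.GB.SlopeFix

/-!
# Companion values at shifted indices, almost every companion factor
-/

set_option autoImplicit false

namespace Pool.Agent.U996.GB

open Finset MeasureTheory Filter Topology
open scoped ENNReal
open Pool.Agent.Y957.AD (PolyVar)
open Pool.Agent.Y957.VK
open Pool.Agent.U996.UW

theorem e1_sq_two (a : ℝ) (ha : 0 < a) (b1 : ℝ) (c : ℕ) (hc : 1 ≤ c) (h : ℤ) (y : ℕ → ℕ)
    (hyP : ∀ q, 1 ≤ q → 1 ≤ y q ∧ y q ≤ P (q + 2))
    (hyi : ∀ q q' : ℕ, q.Prime → q'.Prime → y q = y q' → q = q')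
    (w : ℕ → ℕ → ℝ) (hw : ∀ n t, |w n t| ≤ 1) (K : ℕ) :
    ∃ C : ℝ, 0 ≤ C ∧ ∀ᶠ n : ℕ in atTop,
      ∫⁻ u in Set.Icc (0 : ℝ) 1, ‖e1 a (Real.exp (b1 + u)) c h y (w n) n‖ₑ ^ 2 ≤
        ENNReal.ofReal (C * (n ^ 2 / Real.log n ^ K)) := by
  obtain ⟨C, hC, hp⟩ := full_map (sh (fun n => pI n - pR n) h) (sh_le fp_le _) (sh_meas _ _)
    (sh_var fp_le _) (sh_neg fp_le neg_fp _) b1 c (by exact_mod_cast hc) (K + 2)
  obtain ⟨G, hG⟩ : ∃ G : ℕ, G = ⌈a⌉₊ + 3 := ⟨_, rfl⟩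
  obtain ⟨B, hB⟩ : ∃ B : ℕ, B = ⌈1 / a⌉₊ + 1 := ⟨_, rfl⟩
  have hGr : a + 2 ≤ G := by
    rw [hG]
    push_cast
    have := Nat.le_ceil a
    linarith
  have hG1 : 1 ≤ G := by omega
  have hBr : 1 / a + 1 ≤ B := by
    rw [hB]
    push_cast
    have := Nat.le_ceil (1 / a)
    linarith
  have hPG : ∀ᶠ n : ℕ in atTop, n ≤ P (G * n) ∧ (P (G * n) : ℝ) ≤ 8 * G * (n * Real.log n) := by
    have hGn : Tendsto (fun n : ℕ => G * n) atTop atTop := tendsto_id.const_mul_atTop' (by omega)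
    filter_upwards [hGn.eventually P_le, eventually_ge_atTop G, eventually_ge_atTop 2] with n h1 h2 h3
    have h4 := P_ge (G * n) (by nlinarith)
    refine ⟨by nlinarith, h1.trans ?_⟩
    have hn0 : (0 : ℝ) < n := by exact_mod_cast (by omega : 0 < n)
    have hG0 : (0 : ℝ) < G := by exact_mod_cast (by omega : 0 < G)
    have h5 : Real.log ((G * n : ℕ) : ℝ) ≤ 2 * Real.log n := by
      push_cast
      rw [Real.log_mul hG0.ne' hn0.ne']
      have : Real.log G ≤ Real.log n := Real.log_le_log hG0 (by exact_mod_cast h2)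
      linarith
    calc 4 * (((G * n : ℕ) : ℝ) * Real.log ((G * n : ℕ) : ℝ)) ≤ 4 * (((G * n : ℕ) : ℝ) * (2 * Real.log n)) := by
          gcongr
      _ = _ := by
          push_cast
          ring
  refine ⟨C * B ^ 2 * (8 * G) ^ 2, by positivity, ?_⟩
  filter_upwards [hPG, eventually_ge_atTop 2, nlog.eventually_ge_atTop 1] with n hX hn hl
  have hX2 : 2 ≤ P (G * n) := hn.trans hX.1
  have h1 := hp ℕ ((Icc 1 (n - 1)).filter fun t : ℕ => (⌊a * t⌋₊).Prime)
    (fun t => (w n t : ℂ)) (fun t => y ⌊a * t⌋₊) (P (G * n)) B hX2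
    (fun t _ => by
      show ‖(w n t : ℂ)‖ ≤ 1
      rw [Complex.norm_real]
      exact hw n t)
    (fun t ht => by
      rw [mem_filter, mem_Icc] at ht
      obtain ⟨⟨t1, t2⟩, t3⟩ := ht
      have h2 := hyP _ t3.one_lt.le
      refine ⟨h2.1, h2.2.trans (P_mono ?_)⟩
      have h3 : ((⌊a * t⌋₊ + 2 : ℕ) : ℝ) ≤ ((G * n : ℕ) : ℝ) := by
        have h5 : (⌊a * t⌋₊ : ℝ) ≤ a * t := Nat.floor_le (by positivity)
        push_cast
        have h4 : (t : ℝ) ≤ n := by exact_mod_cast (by omega : t ≤ n)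
        have h6 : (1 : ℝ) ≤ n := by exact_mod_cast (by omega : 1 ≤ n)
        have h7 : a * t ≤ a * n := mul_le_mul_of_nonneg_left h4 ha.le
        have h8 : (a + 2) * n ≤ G * n := mul_le_mul_of_nonneg_right hGr (by linarith)
        linarith
      exact_mod_cast h3)
    (fun m => by
      rcases (((Icc 1 (n - 1)).filter fun t : ℕ => (⌊a * t⌋₊).Prime).filter
        fun t : ℕ => y ⌊a * t⌋₊ = m).eq_empty_or_nonempty with h2 | ⟨t0, ht0⟩
      · rw [h2]
        simp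
      · rw [mem_filter, mem_filter] at ht0
        refine le_trans (Finset.card_le_card ?_)
          (fibre_nat a ha (Icc 1 (n - 1)) ⌊a * t0⌋₊ B hBr)
        intro t ht
        rw [mem_filter, mem_filter] at ht
        rw [mem_filter]
        exact ⟨ht.1.1, hyi _ _ ht.1.2 ht0.1.2 (ht.2.trans ht0.2.symm)⟩)
  refine le_trans (le_of_eq ?_) (h1.trans (ENNReal.ofReal_le_ofReal ?_))
  · refine lintegral_congr fun u => ?_
    rw [enorm_rc, e1_eq_fix]
  · have hn0 : (0 : ℝ) < n := by exact_mod_cast (by omega : 0 < n)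
    have hl0 : 0 < Real.log n := by linarith
    have hXn : (n : ℝ) ≤ P (G * n) := by exact_mod_cast hX.1
    have hlog : Real.log n ≤ Real.log (P (G * n)) := Real.log_le_log hn0 hXn
    calc C * B ^ 2 * ((P (G * n) : ℝ) ^ 2 / Real.log (P (G * n)) ^ (K + 2)) ≤
          C * B ^ 2 * ((8 * G * (n * Real.log n)) ^ 2 / Real.log n ^ (K + 2)) := by
          apply mul_le_mul_of_nonneg_left _ (by positivity)
          apply div_le_div₀ (by positivity) (pow_le_pow_left₀ (Nat.cast_nonneg _) hX.2 2) (by positivity)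
          exact pow_le_pow_left₀ hl0.le hlog _
      _ = _ := by
          rw [pow_add]
          field_simp

/-- every slope, almost every companion factor -/
theorem two_ae (a : ℝ) (ha : 0 < a) (c : ℕ) (hc : 1 ≤ c) (y : ℕ → ℕ)
    (hyP : ∀ q, 1 ≤ q → 1 ≤ y q ∧ y q ≤ P (q + 2))
    (hyi : ∀ q q' : ℕ, q.Prime → q'.Prime → y q = y q' → q = q')
    (w : ℕ → ℕ → ℝ) (hw : ∀ n t, |w n t| ≤ 1) (R : Set ℕ) :
    ∀ᵐ γ : ℝ, 0 < γ → ∀ (h : ℤ) (K : ℕ), ∀ᶠ i : ℕ in atTop,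
        (((dy R i).filter fun n : ℕ => (n : ℝ) / Real.log n ^ K < |e1 a γ c h y (w n) n|).card : ℝ) *
          i ^ K ≤ (dy R i).card := by
  refine ae_cubes1 (fun γ => ∀ (h : ℤ) (K : ℕ), ∀ᶠ i : ℕ in atTop,
        (((dy R i).filter fun n : ℕ => (n : ℝ) / Real.log n ^ K < |e1 a γ c h y (w n) n|).card : ℝ) *
          i ^ K ≤ (dy R i).card) fun b => ?_
  rw [ae_all_iff]
  intro h
  exact exc_real (volume.restrict (Set.Icc (0 : ℝ) 1))
    (fun n u => e1 a (Real.exp ((b : ℝ) + u)) c h y (w n) n) (fun n => e1_meas_fix a _ c h y _ n)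
    (fun K => e1_sq_two a ha (b : ℝ) c hc h y hyP hyi w hw K) R


end Pool.Agent.U996.GB
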